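import Pool.Agent.Run7.h424.XK.TOR
import Pool.Agent.Y682.Rk

/-!
# The rank over an imaginary quadratic field is at most the rank of the twist, if the rank over `ℚ` is zero
-/

set_option autoImplicit false
set_option linter.unusedSectionVars false

open WeierstrassCurve NumberField

namespace Run7.h238.XK

open Run7.h135.XK (QK)
open Pool.Agent.Run7.h424.XK (cj cj_eq cj_cj of_fix of_neg)
open Pool.Agent.Y682 (MP fg_MP IsT)
open Pool.Agent.TH841.NF (Sc tF tF_add tF_some ns_iff)

/-- the map on the groups of points -/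
noncomputable def mtu {k k' : Type} [Field k] [Field k'] {ι : k →+* k'} {u : k'}
    {W : WeierstrassCurve k} {W' : WeierstrassCurve k'} (S : Sc ι u W W') : MP W →+ MP W' where
  toFun := tF S
  map_zero' := rfl
  map_add' := @tF_add _ _ _ _ _ _ _ _ S (Classical.decEq k) (Classical.decEq k')

theorem mtu_some {k k' : Type} [Field k] [Field k'] {ι : k →+* k'} {u : k'}
    {W : WeierstrassCurve k} {W' : WeierstrassCurve k'} (S : Sc ι u W W') {x y : k}
    (h : W.toAffine.Nonsingular x y) : mtu S (Affine.Point.some x y h : W.toAffine.Point) =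
      (Affine.Point.some (ι x * u ^ 2) (ι y * u ^ 3) ((ns_iff S x y).2 h) : W'.toAffine.Point) := rfl

theorem mtu_inj {k k' : Type} [Field k] [Field k'] {ι : k →+* k'} {u : k'}
    {W : WeierstrassCurve k} {W' : WeierstrassCurve k'} (S : Sc ι u W W') :
    Function.Injective (mtu S) := by
  intro P Q h
  rcases P with _ | ⟨x, y, hx⟩ <;> rcases Q with _ | ⟨x', y', hx'⟩
  · rfl
  · exact absurd h.symm (Affine.Point.some_ne_zero _)
  · exact absurd h (Affine.Point.some_ne_zero _)
  · have h' : (Affine.Point.some (ι x * u ^ 2) (ι y * u ^ 3) ((ns_iff S x y).2 hx) :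
        W'.toAffine.Point) = .some (ι x' * u ^ 2) (ι y' * u ^ 3) ((ns_iff S x' y').2 hx') := h
    rw [Affine.Point.some.injEq] at h'
    have h1 := ι.injective (mul_right_cancel₀ (pow_ne_zero 2 S.hu) h'.1)
    have h2 := ι.injective (mul_right_cancel₀ (pow_ne_zero 3 S.hu) h'.2)
    subst h1 h2
    rfl

/-- a finite group has rank zero -/
theorem finrank_fin {M : Type} [AddCommGroup M] [Finite M] : Module.finrank ℤ M = 0 := by
  rw [Module.finrank_eq_zero_iff_isTorsion]
  intro x
  have h0 : (Nat.card M : ℤ) ≠ 0 := by exact_mod_cast Nat.card_pos.ne'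
  refine ⟨⟨(Nat.card M : ℤ), mem_nonZeroDivisors_of_ne_zero h0⟩, ?_⟩
  show (Nat.card M : ℤ) • x = 0
  rw [natCast_zsmul, card_nsmul_eq_zero']

/-- a homomorphism with finite kernel does not decrease the rank -/
theorem finrank_le_of_fin {A B : Type} [AddCommGroup A] [AddCommGroup B] [Module.Finite ℤ A]
    [Module.Finite ℤ B] (f : A →+ B) (hf : Finite f.ker) :
    Module.finrank ℤ A ≤ Module.finrank ℤ B := by
  have hker : Module.finrank ℤ (LinearMap.ker f.toIntLinearMap) = 0 := by
    have : Finite (LinearMap.ker f.toIntLinearMap) := hf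
    exact finrank_fin
  have h4 := Submodule.finrank_quotient_add_finrank (LinearMap.ker f.toIntLinearMap)
  rw [LinearEquiv.finrank_eq (LinearMap.quotKerEquivRange f.toIntLinearMap)] at h4
  have h5 : Module.finrank ℤ (LinearMap.range f.toIntLinearMap) ≤ Module.finrank ℤ B :=
    Submodule.finrank_le _
  omega

section quad

variable {K : Type} [Field K] [NumberField K] {n : ℕ} {r : K} {A B : ℚ}

/-- `y² = x³ + A x² + B x` over `ℚ`, over `K` and its twist by `-n` -/
abbrev Wq (A B : ℚ) : WeierstrassCurve ℚ := ⟨0, A, 0, B, 0⟩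

abbrev Wk (K : Type) [Field K] (A B : ℚ) : WeierstrassCurve K := ⟨0, (A : K), 0, (B : K), 0⟩

abbrev Wt (n : ℕ) (A B : ℚ) : WeierstrassCurve ℚ := ⟨0, -(n * A), 0, (n : ℚ) ^ 2 * B, 0⟩

theorem r_ne (hn : n ≠ 0) (h : QK K n r) : r ≠ 0 := by
  rintro rfl
  have h2 := h.sq
  rw [zero_pow two_ne_zero, zero_eq_neg, Nat.cast_eq_zero] at h2
  exact hn h2

theorem scF (hn : n ≠ 0) (h : QK K n r) :
    Sc (cj hn h : K →+* K) 1 (Wk K A B) (Wk K A B) := by
  have e : ∀ q : ℚ, (cj hn h : K →+* K) (q : K) = q := fun q => map_ratCast _ q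
  refine ⟨one_ne_zero, ?_, ?_, ?_, ?_, ?_⟩
  · show (0 : K) = (cj hn h : K →+* K) 0 * 1
    rw [map_zero, zero_mul]
  · show (A : K) = (cj hn h : K →+* K) (A : K) * 1 ^ 2
    rw [e, one_pow, mul_one]
  · show (0 : K) = (cj hn h : K →+* K) 0 * 1 ^ 3
    rw [map_zero, zero_mul]
  · show (B : K) = (cj hn h : K →+* K) (B : K) * 1 ^ 4
    rw [e, one_pow, mul_one]
  · show (0 : K) = (cj hn h : K →+* K) 0 * 1 ^ 6
    rw [map_zero, zero_mul]

theorem scQ : Sc (Rat.castHom K) 1 (Wq A B) (Wk K A B) := by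
  refine ⟨one_ne_zero, ?_, ?_, ?_, ?_, ?_⟩
  · show (0 : K) = Rat.castHom K 0 * 1
    rw [map_zero, zero_mul]
  · show (A : K) = Rat.castHom K A * 1 ^ 2
    rw [one_pow, mul_one]
    rfl
  · show (0 : K) = Rat.castHom K 0 * 1 ^ 3
    rw [map_zero, zero_mul]
  · show (B : K) = Rat.castHom K B * 1 ^ 4
    rw [one_pow, mul_one]
    rfl
  · show (0 : K) = Rat.castHom K 0 * 1 ^ 6
    rw [map_zero, zero_mul]

theorem scT (hn : n ≠ 0) (h : QK K n r) : Sc (Rat.castHom K) r⁻¹ (Wt n A B) (Wk K A B) := by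
  have hr := r_ne hn h
  have h2 := h.sq
  have hnK : (n : K) ≠ 0 := Nat.cast_ne_zero.2 hn
  refine ⟨inv_ne_zero hr, ?_, ?_, ?_, ?_, ?_⟩
  · show (0 : K) = Rat.castHom K 0 * r⁻¹
    rw [map_zero, zero_mul]
  · show (A : K) = ((-(n * A) : ℚ) : K) * r⁻¹ ^ 2
    push_cast
    rw [inv_pow, h2]
    field_simp
  · show (0 : K) = Rat.castHom K 0 * r⁻¹ ^ 3
    rw [map_zero, zero_mul]
  · show (B : K) = (((n : ℚ) ^ 2 * B : ℚ) : K) * r⁻¹ ^ 4
    push_cast
    have e4 : r⁻¹ ^ 4 = ((n : K) ^ 2)⁻¹ := by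
      rw [inv_pow]
      congr 1
      linear_combination (r ^ 2 - n) * h2
    rw [e4]
    field_simp
  · show (0 : K) = Rat.castHom K 0 * r⁻¹ ^ 6
    rw [map_zero, zero_mul]

/-- **the rank over `K` is at most the rank of the twist** -/
theorem rank_le (hn : n ≠ 0) (h : QK K n r) (hfin : Finite (MP (Wq A B)))
    (hK : Module.Finite ℤ (MP (Wk K A B))) (hT : Module.Finite ℤ (MP (Wt n A B))) :
    Module.finrank ℤ (MP (Wk K A B)) ≤ Module.finrank ℤ (MP (Wt n A B)) := by
  have hr := r_ne hn h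
  have h2 := h.sq
  set φ : MP (Wk K A B) →+ MP (Wk K A B) := mtu (scF hn h) with hφ
  have hφs : ∀ (a b : K) (hab : (Wk K A B).toAffine.Nonsingular a b), ∃ hab',
      φ (Affine.Point.some a b hab : (Wk K A B).toAffine.Point) =
        (Affine.Point.some (cj hn h a) (cj hn h b) hab' : (Wk K A B).toAffine.Point) := by
    intro a b hab
    have h3 := (ns_iff (scF (A := A) (B := B) hn h) a b).2 hab
    have e1 : (cj hn h : K →+* K) a * 1 ^ 2 = cj hn h a := by rw [one_pow, mul_one]; rfl
    have e2 : (cj hn h : K →+* K) b * 1 ^ 3 = cj hn h b := by rw [one_pow, mul_one]; rfl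
    have h4 := h3
    rw [e1, e2] at h4
    refine ⟨h4, ?_⟩
    rw [hφ, mtu_some]
    have : (Affine.Point.some ((cj hn h : K →+* K) a * 1 ^ 2) ((cj hn h : K →+* K) b * 1 ^ 3) h3 :
        (Wk K A B).toAffine.Point) = Affine.Point.some (cj hn h a) (cj hn h b) h4 := by
      rw [Affine.Point.some.injEq]
      exact ⟨e1, e2⟩
    exact this
  have hφφ : ∀ P, φ (φ P) = P := by
    intro P
    rcases P with _ | ⟨a, b, hab⟩
    · rfl
    · obtain ⟨h1, h2⟩ := hφs a b hab
      rw [h2]
      obtain ⟨h3, h5⟩ := hφs _ _ h1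
      rw [h5]
      simp only [cj_cj]
  -- the fixed points
  have hfix : ∀ P, φ P = P → ∃ Q : MP (Wq A B), mtu (scQ (K := K)) Q = P := by
    intro P hP
    rcases P with _ | ⟨a, b, hab⟩
    · exact ⟨0, map_zero _⟩
    · obtain ⟨h1, h3⟩ := hφs a b hab
      rw [h3] at hP
      have h4 := (Affine.Point.some.injEq ..).mp hP
      obtain ⟨X, rfl⟩ := of_fix hn h h4.1
      obtain ⟨Y, rfl⟩ := of_fix hn h h4.2
      have e1 : Rat.castHom K X * 1 ^ 2 = (X : K) := by rw [one_pow, mul_one]; rfl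
      have e2 : Rat.castHom K Y * 1 ^ 3 = (Y : K) := by rw [one_pow, mul_one]; rfl
      have h5 : (Wq A B).toAffine.Nonsingular X Y := by
        rw [← ns_iff (scQ (K := K) (A := A) (B := B)), e1, e2]
        exact hab
      refine ⟨(Affine.Point.some X Y h5 : (Wq A B).toAffine.Point), ?_⟩
      rw [mtu_some]
      have : (Affine.Point.some (Rat.castHom K X * 1 ^ 2) (Rat.castHom K Y * 1 ^ 3)
          ((ns_iff (scQ (K := K) (A := A) (B := B)) X Y).2 h5) :
          (Wk K A B).toAffine.Point) = Affine.Point.some (X : K) (Y : K) hab := by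
        rw [Affine.Point.some.injEq]
        exact ⟨e1, e2⟩
      exact this
  have hanti : ∀ P, φ P = -P → ∃ Q : MP (Wt n A B), mtu (scT hn h) Q = P := by
    intro P hP
    rcases P with _ | ⟨a, b, hab⟩
    · exact ⟨0, map_zero _⟩
    · obtain ⟨h1, h3⟩ := hφs a b hab
      rw [h3] at hP
      have h4' : (Affine.Point.some (cj hn h a) (cj hn h b) h1 : (Wk K A B).toAffine.Point) =
          -(Affine.Point.some a b hab : (Wk K A B).toAffine.Point) := hP
      rw [Affine.Point.neg_some] at h4'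
      have h4 := (Affine.Point.some.injEq ..).mp h4'
      have eY : (Wk K A B).toAffine.negY a b = -b := by
        simp only [Affine.negY]
        ring
      rw [eY] at h4
      obtain ⟨X, rfl⟩ := of_fix hn h h4.1
      obtain ⟨v, rfl⟩ := of_neg hn h h4.2
      have e1 : Rat.castHom K (-(n * X)) * r⁻¹ ^ 2 = (X : K) := by
        show ((-(n * X) : ℚ) : K) * r⁻¹ ^ 2 = X
        push_cast
        have hnK : (n : K) ≠ 0 := Nat.cast_ne_zero.2 hn
        rw [inv_pow, h2]
        field_simp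
      have e2 : Rat.castHom K ((n : ℚ) ^ 2 * v) * r⁻¹ ^ 3 = (v : K) * r := by
        show (((n : ℚ) ^ 2 * v : ℚ) : K) * r⁻¹ ^ 3 = v * r
        push_cast
        have e4 : (n : K) ^ 2 = r ^ 4 := by
          linear_combination (n - r ^ 2) * h2
        rw [e4]
        field_simp
      have h5 : (Wt n A B).toAffine.Nonsingular (-(n * X)) ((n : ℚ) ^ 2 * v) := by
        rw [← ns_iff (scT (A := A) (B := B) hn h), e1, e2]
        exact hab
      refine ⟨(Affine.Point.some (-(n * X)) ((n : ℚ) ^ 2 * v) h5 : (Wt n A B).toAffine.Point), ?_⟩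
      rw [mtu_some]
      have : (Affine.Point.some (Rat.castHom K (-(n * X)) * r⁻¹ ^ 2)
          (Rat.castHom K ((n : ℚ) ^ 2 * v) * r⁻¹ ^ 3)
          ((ns_iff (scT (A := A) (B := B) hn h) _ _).2 h5) :
          (Wk K A B).toAffine.Point) = Affine.Point.some (X : K) (v * r : K) hab := by
        rw [Affine.Point.some.injEq]
        exact ⟨e1, e2⟩
      exact this
  choose t ht using fun P : MP (Wk K A B) => hanti (P - φ P) (by
    rw [map_sub, hφφ]
    abel)
  let f : MP (Wk K A B) →+ MP (Wt n A B) :=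
    { toFun := t
      map_zero' := by
        apply mtu_inj (scT hn h)
        rw [ht, map_zero, map_zero, sub_zero]
      map_add' := by
        intro P Q
        apply mtu_inj (scT hn h)
        rw [ht, map_add, map_add, ht, ht]
        abel }
  refine finrank_le_of_fin f ?_
  have hk : ∀ P : f.ker, ∃ Q : MP (Wq A B), mtu (scQ (K := K)) Q = P.1 := by
    rintro ⟨P, hP⟩
    apply hfix
    have h3 : t P = 0 := hP
    have h4 := ht P
    rw [h3, map_zero] at h4
    exact (sub_eq_zero.1 h4.symm).symm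
  choose q hq using hk
  exact Finite.of_injective q fun P Q hPQ => Subtype.ext (by rw [← hq P, ← hq Q, hPQ])

end quad

end Run7.h238.XK
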