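import Pool.Agent.Run7.h238.XK.Rkq
import Pool.Agent.Run7.h555.XK.Clg
import Pool.Agent.Run7.h289.D18.Fn
import Pool.Agent.Run7.h437.XK.FQ
import Pool.Agent.Run7.h834.XK.ISO

/-!
# Project XK: the rank over `K` and the 4-rank of the class group
-/

set_option autoImplicit false
set_option linter.unusedSectionVars false

open WeierstrassCurve NumberField

namespace Run7.h238.XK

open Run7.h135.XK
open Pool.Agent.Y682 (MP fg_MP IsT)
open Pool.Agent.TH841.NF.D (Sha)
open Pool.Agent.Run7.h289.D18 (Nf Ec Pr Ad corank fr_eq)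
open Pool.Agent.Y755.FK (qn)

open scoped Classical in
/-- the number of the solvable factorizations -/
theorem Nf_qn {n : ℕ} (hn0 : n ≠ 0) : Nf n = qn 1 1 n := by
  have key : ∀ b c : ℕ, b * c = n → (Pool.Agent.Y755.FK.Qc 1 1 b c ↔
      (∀ p ∈ c.primeFactors, jacobiSym b p = 1) ∧ ∀ p ∈ b.primeFactors, jacobiSym c p = 1) := by
    intro b c hbc
    have hb0 : b ≠ 0 := by rintro rfl; rw [zero_mul] at hbc; exact hn0 hbc.symm
    have hc0 : c ≠ 0 := by rintro rfl; rw [mul_zero] at hbc; exact hn0 hbc.symm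
    unfold Pool.Agent.Y755.FK.Qc
    simp only [one_mul, Nat.mem_primeFactors]
    constructor
    · rintro ⟨h1, h2⟩
      exact ⟨fun p hp => h1 p hp.1 hp.2.1, fun p hp => h2 p hp.1 hp.2.1⟩
    · rintro ⟨h1, h2⟩
      exact ⟨fun p hp hpc => h1 p ⟨hp, hpc, hc0⟩, fun p hp hpb => h2 p ⟨hp, hpb, hb0⟩⟩
  unfold Nf qn
  rw [← Nat.card_eq_finsetCard]
  have hb0 : ∀ b c : ℕ, b * c = n → 0 < b := by
    intro b c hbc
    rcases Nat.eq_zero_or_pos b with h0 | h0
    · rw [h0, zero_mul] at hbc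
      exact absurd hbc.symm hn0
    · exact h0
  refine Nat.card_congr ⟨fun s => ⟨s.1.1, ?_⟩, fun b => ⟨(b.1, n / b.1), ?_⟩, ?_, ?_⟩
  · obtain ⟨⟨b, c⟩, hbc, h⟩ := s
    simp only at hbc h ⊢
    have hdc : n / b = c := by
      rw [← hbc, Nat.mul_div_cancel_left c (hb0 b c hbc)]
    rw [Finset.mem_filter, Nat.mem_divisors, hdc, key b c hbc]
    exact ⟨⟨Dvd.intro c hbc, hn0⟩, h⟩
  · have hb := b.2
    rw [Finset.mem_filter] at hb
    have hbc : b.1 * (n / b.1) = n := Nat.mul_div_cancel' (Nat.dvd_of_mem_divisors hb.1)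
    exact ⟨hbc, (key _ _ hbc).1 hb.2⟩
  · rintro ⟨⟨b, c⟩, hbc, h⟩
    refine Subtype.ext (Prod.ext rfl ?_)
    show n / b = c
    simp only at hbc
    rw [← hbc, Nat.mul_div_cancel_left c (hb0 b c hbc)]
  · rintro ⟨b, hb⟩
    rfl

/-- the points of `y² = x (x - 9) (x - 25)` over `ℚ` are finite in number -/
theorem fin_Q (hFQ : S_FQ) : Finite (MP (Wq (-34) 225)) := by
  let T : Set (ℚ × ℚ) := {p | (p.1 = 0 ∨ p.1 = 9 ∨ p.1 = 25 ∨ p.1 = 5 ∨ p.1 = 45) ∧
    p.2 ^ 2 = p.1 * (p.1 - 9) * (p.1 - 25)}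
  have hT : T.Finite := by
    have h1 : (({0, 9, 25, 5, 45} : Set ℚ) ×ˢ ({0, 20, -20, 180, -180} : Set ℚ)).Finite :=
      (Set.toFinite _).prod (Set.toFinite _)
    refine h1.subset ?_
    rintro ⟨x, y⟩ ⟨h2, h3⟩
    simp only at h2 h3
    simp only [Set.mem_prod, Set.mem_insert_iff, Set.mem_singleton_iff]
    refine ⟨h2, ?_⟩
    rcases h2 with rfl | rfl | rfl | rfl | rfl
    · left
      have : y ^ 2 = 0 := by rw [h3]; ring
      exact pow_eq_zero_iff two_ne_zero |>.1 this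
    · left
      have : y ^ 2 = 0 := by rw [h3]; ring
      exact pow_eq_zero_iff two_ne_zero |>.1 this
    · left
      have : y ^ 2 = 0 := by rw [h3]; ring
      exact pow_eq_zero_iff two_ne_zero |>.1 this
    · have : (y - 20) * (y + 20) = 0 := by linear_combination h3
      rcases mul_eq_zero.1 this with h4 | h4
      · right; left; linarith
      · right; right; left; linarith
    · have : (y - 180) * (y + 180) = 0 := by linear_combination h3
      rcases mul_eq_zero.1 this with h4 | h4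
      · right; right; right; left; linarith
      · right; right; right; right; linarith
  have hTf : Finite T := hT.to_subtype
  have hin : ∀ x y : ℚ, (Wq (-34) 225).toAffine.Nonsingular x y → (x, y) ∈ T := by
    intro x y h
    have h1 := (Affine.equation_iff _ _).1 h.1
    have h2 : y ^ 2 = x * (x - 9) * (x - 25) := by
      simp only at h1
      linear_combination h1
    exact ⟨hFQ x y h2, h2⟩
  refine Finite.of_injective (β := Option T) (fun P : MP (Wq (-34) 225) =>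
      (match (P : (Wq (-34) 225).toAffine.Point) with
      | .zero => none
      | .some x y h => some ⟨(x, y), hin x y h⟩)) ?_
  rintro (_ | ⟨x, y, h⟩) (_ | ⟨x', y', h'⟩) e
  · rfl
  · cases e
  · cases e
  · simp only [Option.some.injEq, Subtype.mk.injEq, Prod.mk.injEq] at e
    obtain ⟨rfl, rfl⟩ := e
    rfl

theorem pr35 : Pr 3 5 :=
  ⟨by rw [Int.isCoprime_iff_gcd_eq_one]; rfl, by norm_num, by norm_num, by norm_num⟩

theorem ad35 {n : ℕ} (hn : Cl n) : Ad 3 5 n := by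
  have h2 := hn.2
  refine ⟨Int.squarefree_natCast.2 hn.1, by rw [Int.natAbs_natCast]; omega, ?_, ?_, ?_, ?_⟩
  · intro l hl hl2 hd
    have h15 : l ∣ 15 := by
      have : (l : ℤ) ∣ ((15 : ℕ) : ℤ) := by exact_mod_cast hd
      exact Int.natCast_dvd_natCast.1 this
    have h35 : l = 3 ∨ l = 5 := by
      have h6 : l ∣ 3 * 5 := h15
      rcases hl.dvd_mul.1 h6 with h7 | h7
      · exact Or.inl ((Nat.prime_dvd_prime_iff_eq hl Nat.prime_three).1 h7)
      · exact Or.inr ((Nat.prime_dvd_prime_iff_eq hl Nat.prime_five).1 h7)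
    rcases h35 with rfl | rfl
    · have e : (((n : ℕ) : ℤ) : ZMod 3) = 2 := by
        have := (ZMod.natCast_eq_natCast_iff' n 2 3).2 (by omega)
        exact_mod_cast this
      rw [e]
      decide
    · rcases h2 with h2 | h2
      · have e : (((n : ℕ) : ℤ) : ZMod 5) = 3 := by
          have := (ZMod.natCast_eq_natCast_iff' n 3 5).2 (by omega)
          exact_mod_cast this
        rw [e]
        decide
      · have e : (((n : ℕ) : ℤ) : ZMod 5) = 2 := by
          have := (ZMod.natCast_eq_natCast_iff' n 2 5).2 (by omega)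
          exact_mod_cast this
        rw [e]
        decide
  · intro l hl hl2 hd
    exfalso
    have h16 : (l : ℤ) ∣ ((2 ^ 4 : ℕ) : ℤ) := by
      rw [← Int.dvd_neg]
      exact_mod_cast hd
    have h5 := hl.dvd_of_dvd_pow (Int.natCast_dvd_natCast.1 h16)
    exact hl2 ((Nat.prime_dvd_prime_iff_eq hl Nat.prime_two).1 h5)
  · intro _
    left
    norm_num
  · intro h
    omega

theorem ec35 (n : ℕ) : Ec 3 5 n = Wt n (-34) 225 := by
  unfold Ec Wt
  congr 1
  · push_cast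
    ring
  · push_cast
    ring

theorem wk35 (K : Type) [Field K] [CharZero K] : Wk K (-34) 225 = E0 K := by
  unfold Wk E0
  congr 1
  · push_cast
    rfl
  · push_cast
    rfl

/-- **the rank over `K` and the 4-rank of the class group** -/
theorem rk4 {K : Type} [Field K] [NumberField K] {n : ℕ} (hFQ : S_FQ) (hK : Run7.h555.XK.QF K n)
    (hn : Run7.h555.XK.Cl n) {r : K} (hQK : QK K n r) : ∃ k : ℕ,
    Nat.card {y : ClassGroup (𝓞 K) // ∃ x : ClassGroup (𝓞 K), x ^ 4 = 1 ∧ x ^ 2 = y} = 2 ^ k ∧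
    Finite {x : Sha (Ec 3 5 n) // 2 • x = 0} ∧
    2 ^ (Module.finrank ℤ (MP (⟨1, 1, 1, -10, -10⟩ : WeierstrassCurve K))) *
      Nat.card {x : Sha (Ec 3 5 n) // 2 • x = 0} ≤ 4 ^ k ∧
    Module.finrank ℤ (MP (⟨1, 1, 1, -10, -10⟩ : WeierstrassCurve K)) ≤ 2 * k := by
  have hn0 : n ≠ 0 := hn.1.ne_zero
  obtain ⟨k, h1, -, -, h4, h5, -⟩ := corank pr35 (ad35 (n := n) hn)
  rw [Int.natAbs_natCast, Nf_qn hn0, Run7.h555.XK.qn_eq hK hn, pow_succ] at h1
  have hTt : IsT (Wt n (-34) 225) (-((n : ℚ) * (-34))) ((n : ℚ) ^ 2 * 225) := by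
    have hnq : (n : ℚ) ≠ 0 := Nat.cast_ne_zero.2 hn0
    refine ⟨rfl, rfl, rfl, rfl, rfl, mul_ne_zero (pow_ne_zero 2 hnq) (by norm_num), ?_⟩
    have e : (-((n : ℚ) * (-34))) ^ 2 - 4 * ((n : ℚ) ^ 2 * 225) = (n : ℚ) ^ 2 * 256 := by ring
    rw [e]
    exact mul_ne_zero (pow_ne_zero 2 hnq) (by norm_num)
  have hTK : IsT (E0 K) (-34 : K) 225 := by
    refine ⟨rfl, rfl, rfl, rfl, rfl, by norm_num, by norm_num⟩
  have hfK : Module.Finite ℤ (MP (Wk K (-34) 225)) := by
    rw [wk35]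
    exact fg_MP hTK
  have hle := rank_le hn0 hQK (fin_Q hFQ) hfK (fg_MP hTt)
  rw [wk35, ← ec35, fr_eq] at hle
  have hp : Nonempty (MP (⟨1, 1, 1, -10, -10⟩ : WeierstrassCurve K) ≃+ MP (E0 K)) :=
    ⟨@Pool.Agent.Y700.VR.equiv K _ (Classical.decEq K) _ _ _ _ _ _ (Run7.h834.XK.vr15 K)
      (Run7.h834.XK.delta15 K)⟩
  obtain ⟨e'⟩ := hp
  rw [← e'.toIntLinearEquiv.finrank_eq] at hle
  have h6 : 2 ^ (Module.finrank ℤ (MP (⟨1, 1, 1, -10, -10⟩ : WeierstrassCurve K))) *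
      Nat.card {x : Sha (Ec 3 5 n) // 2 • x = 0} ≤ 4 ^ k :=
    le_trans (Nat.mul_le_mul_right _ (Nat.pow_le_pow_right (by norm_num) hle)) h5
  refine ⟨k, by omega, h4, h6, ?_⟩
  have h7 : 0 < Nat.card {x : Sha (Ec 3 5 n) // 2 • x = 0} := by
    have : Nonempty {x : Sha (Ec 3 5 n) // 2 • x = 0} := ⟨⟨0, smul_zero _⟩⟩
    exact Nat.card_pos
  have h8 : 2 ^ (Module.finrank ℤ (MP (⟨1, 1, 1, -10, -10⟩ : WeierstrassCurve K))) ≤ 2 ^ (2 * k) := by
    rw [pow_mul]
    exact le_trans (Nat.le_mul_of_pos_right _ h7) h6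
  exact (Nat.pow_le_pow_iff_right (by norm_num)).1 h8

end Run7.h238.XK
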