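import Pool.Agent.Run7.h555.P15.Tg

/-!
# Project XK: the local index for split multiplicative reduction of type `I₄`
-/

set_option autoImplicit false
set_option linter.unusedSectionVars false

open WeierstrassCurve WithZero

namespace Run7.h238.XK

open Run7.h555.Tam (exists_exp exp_sq vint vnat vadd vsub vmul vpow vaddl vsubl vmull vmulr vpowl)
open Run7.h555.C12 (Tp add_T T_add_T eq_T neg_some')
open Run7.h555.G6 (AB)
open Run7.h555.P15 (NS sing_node)

variable {L : Type} [Field L] {W : WeierstrassCurve L} {a b : L} [DecidableEq L]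
  {v : Valuation L ℤᵐ⁰} (A : AB W a b)

include A in
/-- three points on a line -/
theorem line3 {X₁ Y₁ X₂ Y₂ X₃ Y₃ : L} {h₁ : W.toAffine.Nonsingular X₁ Y₁}
    {h₂ : W.toAffine.Nonsingular X₂ Y₂} {h₃ : W.toAffine.Nonsingular X₃ Y₃}
    (h : (.some X₁ Y₁ h₁ : W.toAffine.Point) + .some X₂ Y₂ h₂ = .some X₃ Y₃ h₃) :
    ∃ l ν : L, X₁ + X₂ + X₃ = l ^ 2 - a ∧ X₁ * X₂ + (X₁ + X₂) * X₃ = b - 2 * (l * ν) ∧
      X₁ * X₂ * X₃ = ν ^ 2 ∧ Y₁ = l * X₁ + ν ∧ Y₂ = l * X₂ + ν := by
  have hxy : ¬ (X₁ = X₂ ∧ Y₁ = W.toAffine.negY X₂ Y₂) := by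
    rintro ⟨e1, e2⟩
    rw [Affine.Point.add_of_Y_eq e1 e2] at h
    exact Affine.Point.some_ne_zero _ h.symm
  rw [Affine.Point.add_some hxy, Affine.Point.some.injEq] at h
  obtain ⟨hX, -⟩ := h
  have e1 := A.eqn h₁
  have e2 := A.eqn h₂
  set l := W.toAffine.slope X₁ X₂ Y₁ Y₂ with hl
  have hX' : X₃ = l ^ 2 - a - X₁ - X₂ := by
    rw [← hX]
    simp only [Affine.addX, A.k1, A.k2]
    ring
  have key : l * (X₁ - X₂) = Y₁ - Y₂ ∧ l * (2 * Y₁ - l * (X₁ - X₂)) =
      X₁ ^ 2 + X₁ * X₂ + X₂ ^ 2 + a * (X₁ + X₂) + b := by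
    by_cases hx : X₁ = X₂
    · have hy : Y₁ ≠ W.toAffine.negY X₂ Y₂ := fun hc => hxy ⟨hx, hc⟩
      have hyy : Y₁ = Y₂ := by
        rcases Affine.Y_eq_of_X_eq h₁.1 h₂.1 hx with hh | hh
        · exact hh
        · exact absurd hh hy
      have hneg : W.toAffine.negY X₁ Y₁ = -Y₁ := by
        simp only [Affine.negY, A.k1, A.k3]; ring
      have hd : 2 * Y₁ ≠ 0 := by
        intro h0
        apply hy
        rw [← hx, ← hyy, hneg]
        linear_combination h0
      have hs : l * (2 * Y₁) = 3 * X₁ ^ 2 + 2 * a * X₁ + b := by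
        rw [hl, Affine.slope_of_Y_ne hx hy, hneg, A.k1, A.k2, A.k4]
        have hd' : Y₁ - -Y₁ ≠ 0 := by
          intro h0; apply hd; linear_combination h0
        rw [div_mul_eq_mul_div, div_eq_iff hd']
        ring
      refine ⟨by rw [← hx, ← hyy]; ring, ?_⟩
      rw [← hx]
      linear_combination hs
    · have hx' : X₁ - X₂ ≠ 0 := sub_ne_zero.2 hx
      have hs : l * (X₁ - X₂) = Y₁ - Y₂ := by
        rw [hl, Affine.slope_of_X_ne hx]
        field_simp
      refine ⟨hs, ?_⟩
      apply mul_left_cancel₀ hx'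
      have hY2 : Y₂ = Y₁ - l * (X₁ - X₂) := by linear_combination hs
      rw [hY2] at e2
      linear_combination e1 - e2
  obtain ⟨k1, k2⟩ := key
  refine ⟨l, Y₁ - l * X₁, by rw [hX']; ring, ?_, ?_, by ring, by linear_combination k1⟩
  · rw [hX']
    linear_combination k2
  · rw [hX']
    linear_combination X₁ * k2 - e1

include A in
/-- the points with nonsingular reduction are closed under addition -/
theorem line_ge (ha : v a ≤ 1) (hb : v b < 1) {X₁ Y₁ X₂ Y₂ X₃ Y₃ : L}
    {h₁ : W.toAffine.Nonsingular X₁ Y₁}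
    {h₂ : W.toAffine.Nonsingular X₂ Y₂} {h₃ : W.toAffine.Nonsingular X₃ Y₃}
    (h : (.some X₁ Y₁ h₁ : W.toAffine.Point) + .some X₂ Y₂ h₂ = .some X₃ Y₃ h₃)
    (g1 : 1 ≤ v X₁) (g2 : 1 ≤ v X₂) : 1 ≤ v X₃ := by
  obtain ⟨l, ν, c1, c2, c3, -, -⟩ := line3 A h
  by_contra hc
  rw [not_le] at hc
  have p1 : 0 < v X₁ := lt_of_lt_of_le zero_lt_one g1
  have p2 : 0 < v X₂ := lt_of_lt_of_le zero_lt_one g2
  set M := max (v X₁) (v X₂) with hM
  have pM : 0 < M := lt_of_lt_of_le p1 (le_max_left _ _)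
  have oM : 1 ≤ M := g1.trans (le_max_left _ _)
  have MP : M ≤ v X₁ * v X₂ := max_le (le_mul_of_one_le_right' g2) (le_mul_of_one_le_left' g1)
  have pP : 0 < v X₁ * v X₂ := lt_of_lt_of_le pM MP
  have hMC : M * v X₃ < M := by
    calc M * v X₃ < M * 1 := mul_lt_mul_of_pos_left hc pM
      _ = M := mul_one _
  have hl : v l ^ 2 ≤ M := by
    rw [← map_pow]
    have e : l ^ 2 = X₁ + X₂ + X₃ + a := by linear_combination -c1
    rw [e]
    exact v.map_add_le (v.map_add_le (v.map_add_le (le_max_left _ _) (le_max_right _ _))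
      (hc.le.trans oM)) (ha.trans oM)
  have hν : v ν ^ 2 = v X₁ * v X₂ * v X₃ := by
    rw [← map_pow, ← c3, map_mul, map_mul]
  have hlν : v (l * ν) < v X₁ * v X₂ := by
    by_contra h0
    rw [not_lt] at h0
    have h1 : (v X₁ * v X₂) * (v X₁ * v X₂) ≤ (M * v X₃) * (v X₁ * v X₂) := by
      calc (v X₁ * v X₂) * (v X₁ * v X₂) ≤ v (l * ν) * v (l * ν) :=
            mul_le_mul' h0 h0
        _ = v l ^ 2 * v ν ^ 2 := by rw [map_mul, sq, sq]; exact mul_mul_mul_comm _ _ _ _
        _ ≤ M * (v X₁ * v X₂ * v X₃) := by rw [hν]; exact mul_le_mul_left hl _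
        _ = (M * v X₃) * (v X₁ * v X₂) := by
            rw [mul_assoc M, mul_comm (v X₃)]
    have h2 := le_of_mul_le_mul_right h1 pP
    exact absurd (lt_of_lt_of_le hMC MP) (not_lt.2 h2)
  have h2' : v (2 : L) ≤ 1 := by exact_mod_cast vnat v 2
  have hR : v (X₁ * X₂ + (X₁ + X₂) * X₃) < v X₁ * v X₂ := by
    rw [c2]
    refine v.map_sub_lt (lt_of_lt_of_le hb (oM.trans MP)) ?_
    rw [map_mul]
    exact lt_of_le_of_lt (mul_le_of_le_one_left' h2') hlν
  have hS : v ((X₁ + X₂) * X₃) < v (X₁ * X₂) := by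
    rw [map_mul, map_mul]
    calc v (X₁ + X₂) * v X₃ ≤ M * v X₃ := mul_le_mul_left (v.map_add_le (le_max_left _ _)
          (le_max_right _ _)) _
      _ < M := hMC
      _ ≤ v X₁ * v X₂ := MP
  rw [v.map_add_eq_of_lt_left hS, map_mul] at hR
  exact lt_irrefl _ hR

include A in
/-- the subgroup of the points with nonsingular reduction -/
def Hs (ha : v a ≤ 1) (hb : v b < 1) : AddSubgroup W.toAffine.Point where
  carrier := {P | ∀ X Y h, P = .some X Y h → 1 ≤ v X}
  zero_mem' := by
    intro X Y h e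
    exact absurd e.symm (Affine.Point.some_ne_zero _)
  neg_mem' := by
    rintro (_ | ⟨X, Y, h⟩) hP
    · intro X Y h e
      exact absurd e.symm (Affine.Point.some_ne_zero _)
    · intro X' Y' h' e
      obtain ⟨h2, e2⟩ := neg_some' A.S0 h
      rw [e2, Affine.Point.some.injEq] at e
      rw [← e.1]
      exact hP X Y h rfl
  add_mem' := by
    rintro (_ | ⟨X₁, Y₁, h₁⟩) (_ | ⟨X₂, Y₂, h₂⟩) hP hQ
    · exact hP
    · exact hQ
    · exact hP
    · intro X₃ Y₃ h₃ e
      exact line_ge A ha hb e (hP X₁ Y₁ h₁ rfl) (hQ X₂ Y₂ h₂ rfl)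

include A in
theorem mem_Hs (ha : v a ≤ 1) (hb : v b < 1) {X Y : L} (h : W.toAffine.Nonsingular X Y) :
    (.some X Y h : W.toAffine.Point) ∈ Hs A ha hb ↔ 1 ≤ v X := by
  constructor
  · intro h1
    exact h1 X Y h rfl
  · intro h1 X' Y' h' e'
    rw [Affine.Point.some.injEq] at e'
    rw [← e'.1]
    exact h1

include A in
/-- the sum of two points in opposite components -/
theorem near_add (ha : v a ≤ 1) (hb : v b < 1) {x y x' y' : L} (h : W.toAffine.Nonsingular x y)
    (h' : W.toAffine.Nonsingular x' y') (hx : v x = exp (-1)) (hx' : v x' = exp (-1))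
    (ht : v (y / x - y' / x') = 1) :
    (.some x y h : W.toAffine.Point) + .some x' y' h' ∈ Hs A ha hb := by
  intro X Y hn e
  obtain ⟨l, ν, -, -, c3, c4, c5⟩ := line3 A e
  have x0 : x ≠ 0 := by
    rintro rfl
    rw [map_zero] at hx
    exact exp_ne_zero hx.symm
  have x0' : x' ≠ 0 := by
    rintro rfl
    rw [map_zero] at hx'
    exact exp_ne_zero hx'.symm
  have e1 : ν * (x' - x) = x * x' * (y / x - y' / x') := by
    field_simp
    rw [c4, c5]
    ring
  have e2 : v ν * v (x' - x) = exp (-2) := by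
    rw [← map_mul, e1, map_mul, ht, mul_one, map_mul, hx, hx', ← exp_add]
    norm_num
  have e3 : v (x' - x) ≤ exp (-1) := by
    have := v.map_sub x' x
    rwa [hx, hx', max_self] at this
  have hν0 : ν ≠ 0 := by
    rintro rfl
    rw [map_zero, zero_mul] at e2
    exact exp_ne_zero e2.symm
  have hd0 : x' - x ≠ 0 := by
    intro h0
    rw [h0, map_zero, mul_zero] at e2
    exact exp_ne_zero e2.symm
  have hX0 : X ≠ 0 := by
    rintro rfl
    rw [mul_zero] at c3
    exact hν0 (pow_eq_zero_iff two_ne_zero |>.1 c3.symm)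
  obtain ⟨k, hk⟩ := exists_exp v hν0
  obtain ⟨m, hm⟩ := exists_exp v hd0
  obtain ⟨j, hj⟩ := exists_exp v hX0
  rw [hk, hm, ← exp_add, exp_inj] at e2
  rw [hm, exp_le_exp] at e3
  have e4 := congrArg v c3
  rw [map_mul, map_mul, map_pow, hx, hx', hj, hk, exp_sq, ← exp_add, ← exp_add, exp_inj] at e4
  rw [hj, ← exp_zero, exp_le_exp]
  omega

include A in
/-- **split multiplicative reduction, type `I₄`** -/
theorem idx_I4s (h2 : v (2 : L) = 1) {e e' : L} (hs : e + e' = -a) (hp : e * e' = b) (he : v e = 1)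
    (he' : v e' = exp (-2)) {x₀ y₀ : L} (h₀ : W.toAffine.Nonsingular x₀ y₀) (hx₀ : v x₀ = exp (-1)) :
    (AddSubgroup.closure (NS W v)).index = 4 := by
  have le' : v e' < 1 := by rw [he', ← exp_zero, exp_lt_exp]; norm_num
  have ha' : a = -(e + e') := by linear_combination hs
  have ha : v a ≤ 1 := by
    rw [ha', Valuation.map_neg]
    exact vadd he.le le'.le
  have vb : v b = exp (-2) := by rw [← hp, map_mul, he, he', one_mul]
  have hb : v b < 1 := by rw [vb, ← exp_zero, exp_lt_exp]; norm_num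
  set H := Hs A ha hb with hH
  have hcl : AddSubgroup.closure (NS W v) = H := by
    have : NS W v = (H : Set W.toAffine.Point) := by
      apply Set.ext
      intro P
      constructor
      · intro hP
        rcases P with _ | ⟨x, y, h⟩
        · exact H.zero_mem
        · exact (mem_Hs A ha hb h).2 ((sing_node A h2 hs hp he le' h).1 (hP x y h rfl))
      · intro hP x y h e1
        rw [e1] at hP
        exact (sing_node A h2 hs hp he le' h).2 ((mem_Hs A ha hb h).1 hP)
    rw [this]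
    exact AddSubgroup.closure_eq _
  rw [hcl]
  -- the slopes
  have tau : ∀ {x y : L}, W.toAffine.Nonsingular x y → v x = exp (-1) →
      v ((y / x) ^ 2 + e) < 1 ∧ v (y / x) = 1 := by
    intro x y h hx
    have x0 : x ≠ 0 := by
      rintro rfl
      rw [map_zero] at hx
      exact exp_ne_zero hx.symm
    have hy : y ^ 2 = x * (x - e) * (x - e') := by
      rw [A.eqn h, ha', ← hp]; ring
    have xl : v x < 1 := by rw [hx, ← exp_zero, exp_lt_exp]; norm_num
    have e5 : (y / x) ^ 2 + e = x - e' + e * e' / x := by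
      rw [div_pow, hy]
      field_simp
      ring
    have h1 : v ((y / x) ^ 2 + e) < 1 := by
      rw [e5]
      refine vaddl (vsubl xl le') ?_
      rw [map_div₀, map_mul, he, he', hx, one_mul, ← exp_sub, ← exp_zero, exp_lt_exp]
      norm_num
    refine ⟨h1, ?_⟩
    have h3 : v ((y / x) ^ 2) = 1 := by
      have e6 : (y / x) ^ 2 = ((y / x) ^ 2 + e) - e := by ring
      rw [e6, v.map_sub_eq_of_lt_right (by rw [he]; exact h1), he]
    rw [map_pow] at h3
    exact (pow_eq_one_iff_of_nonneg zero_le two_ne_zero).1 h3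
  have hdich : ∀ {x y x' y' : L} (_ : W.toAffine.Nonsingular x y) (_ : W.toAffine.Nonsingular x' y'),
      v x = exp (-1) → v x' = exp (-1) → v (y / x - y' / x') = 1 ∨ v (y / x + y' / x') = 1 := by
    intro x y x' y' h h' hx hx'
    obtain ⟨t1, t2⟩ := tau h hx
    obtain ⟨t3, t4⟩ := tau h' hx'
    by_contra hc
    push Not at hc
    have c1 := lt_of_le_of_ne (vsub t2.le t4.le) hc.1
    have c2 := lt_of_le_of_ne (vadd t2.le t4.le) hc.2
    have c3 := vaddl c1 c2
    have e6 : y / x - y' / x' + (y / x + y' / x') = 2 * (y / x) := by ring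
    rw [e6, map_mul, h2, t2, one_mul] at c3
    exact lt_irrefl _ c3
  set P₀ : W.toAffine.Point := .some x₀ y₀ h₀ with hP₀
  set T : W.toAffine.Point := Tp A.S0 with hTd
  have hTT : T + T = 0 := T_add_T A.S0
  have hT : T ∉ H := by
    rw [hTd]
    unfold Tp
    rw [hH, mem_Hs, map_zero]
    simp
  have hPn : ∀ {x y : L} (h : W.toAffine.Nonsingular x y), v x = exp (-1) →
      (.some x y h : W.toAffine.Point) + P₀ ∈ H ∨ (.some x y h : W.toAffine.Point) - P₀ ∈ H := by
    intro x y h hx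
    rcases hdich h h₀ hx hx₀ with h1 | h1
    · exact Or.inl (near_add A ha hb h h₀ hx hx₀ h1)
    · right
      obtain ⟨h3, e3⟩ := neg_some' A.S0 h₀
      rw [sub_eq_add_neg, hP₀, e3]
      refine near_add A ha hb h h3 hx hx₀ ?_
      rw [neg_div, sub_neg_eq_add]
      exact h1
  have hall : ∀ Q : W.toAffine.Point, Q ∈ H ∨ Q + T ∈ H ∨ Q + P₀ ∈ H ∨ Q - P₀ ∈ H := by
    intro Q
    rcases Q with _ | ⟨X, Y, h⟩
    · exact Or.inl H.zero_mem
    · by_cases h1 : 1 ≤ v X
      · exact Or.inl ((mem_Hs A ha hb h).2 h1)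
      · rw [not_le] at h1
        right
        by_cases hX0 : X = 0
        · left
          rw [eq_T A.S0 hX0 h]
          change T + T ∈ H
          rw [hTT]
          exact H.zero_mem
        · obtain ⟨k, hk⟩ := exists_exp v hX0
          rw [hk, ← exp_zero, exp_lt_exp] at h1
          by_cases hk1 : k = -1
          · right
            exact hPn h (by rw [hk, hk1])
          · left
            obtain ⟨X', Y', h', hX', hadd⟩ := add_T A.S0 hX0 h
            rw [hTd, hadd, hH, mem_Hs]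
            rw [sub_zero, sub_zero] at hX'
            rw [hX', map_div₀, vb, hk, ← exp_sub, ← exp_zero, exp_le_exp]
            omega
  -- the double of the point
  have hx00 : x₀ ≠ 0 := by
    rintro rfl
    rw [map_zero] at hx₀
    exact exp_ne_zero hx₀.symm
  have h2P : P₀ + P₀ + T ∈ H := by
    obtain ⟨X', Y', h', hX', hadd⟩ := add_T A.S0 hx00 h₀
    rw [sub_zero, sub_zero] at hX'
    have hv' : v X' = exp (-1) := by
      rw [hX', map_div₀, vb, hx₀, ← exp_sub]
      norm_num
    have e7 : P₀ + T = .some X' Y' h' := hadd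
    rcases hPn h' hv' with h3 | h3
    · rw [← e7] at h3
      have e8 : P₀ + P₀ + T = P₀ + T + P₀ := by abel
      rw [e8]
      exact h3
    · rw [← e7] at h3
      have e8 : P₀ + T - P₀ = T := by abel
      rw [e8] at h3
      exact absurd h3 hT
  -- the quotient
  rw [AddSubgroup.index]
  set p : W.toAffine.Point ⧸ H := QuotientAddGroup.mk P₀ with hpd
  set t : W.toAffine.Point ⧸ H := QuotientAddGroup.mk T with htd
  have t2 : t + t = 0 := by
    rw [htd, ← QuotientAddGroup.mk_add, hTT]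
    rfl
  have t0 : t ≠ 0 := by
    rw [htd, Ne, QuotientAddGroup.eq_zero_iff]
    exact hT
  have pt : p + p + t = 0 := by
    rw [hpd, htd, ← QuotientAddGroup.mk_add, ← QuotientAddGroup.mk_add, QuotientAddGroup.eq_zero_iff]
    exact h2P
  have ept : p + p = t := by
    have : p + p = p + p + t - t := by abel
    rw [this, pt, zero_sub]
    exact neg_eq_of_add_eq_zero_left t2
  have hord : addOrderOf p = 2 ^ (1 + 1) := by
    refine addOrderOf_eq_prime_pow (p := 2) (n := 1) ?_ ?_
    · rw [pow_one, two_nsmul, ept]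
      exact t0
    · have e9 : (2 ^ (1 + 1) : ℕ) • p = (p + p) + (p + p) := by
        rw [show (2 ^ (1 + 1) : ℕ) = 2 + 2 from rfl, add_nsmul, two_nsmul]
      rw [e9, ept, t2]
  have htop : AddSubgroup.zmultiples p = ⊤ := by
    rw [eq_top_iff]
    intro q _
    obtain ⟨Q, rfl⟩ := QuotientAddGroup.mk_surjective q
    have hpm := AddSubgroup.mem_zmultiples p
    have htm : t ∈ AddSubgroup.zmultiples p := by
      rw [← ept]
      exact (AddSubgroup.zmultiples p).add_mem hpm hpm
    rcases hall Q with h1 | h1 | h1 | h1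
    · rw [(QuotientAddGroup.eq_zero_iff Q).2 h1]
      exact (AddSubgroup.zmultiples p).zero_mem
    · have h3 := (QuotientAddGroup.eq_zero_iff (Q + T)).2 h1
      rw [QuotientAddGroup.mk_add] at h3
      rw [eq_neg_of_add_eq_zero_left h3]
      exact (AddSubgroup.zmultiples p).neg_mem htm
    · have h3 := (QuotientAddGroup.eq_zero_iff (Q + P₀)).2 h1
      rw [QuotientAddGroup.mk_add] at h3
      rw [eq_neg_of_add_eq_zero_left h3]
      exact (AddSubgroup.zmultiples p).neg_mem hpm
    · have h3 := (QuotientAddGroup.eq_zero_iff (Q - P₀)).2 h1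
      rw [QuotientAddGroup.mk_sub] at h3
      rw [sub_eq_zero.1 h3]
      exact hpm
  have hc := Nat.card_zmultiples p
  rw [htop, AddSubgroup.card_top, hord] at hc
  rw [hc]
  norm_num

end Run7.h238.XK
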