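import Pool.Agent.Run7.h555.XK.Stm
import Pool.Agent.Run7.h238.XK.I4s
import Pool.Agent.Run7.h741.XK.PL3

/-!
# Project XK: minimality and Tamagawa numbers over `K`
-/

set_option autoImplicit false
set_option linter.unusedSectionVars false

open NumberField IsDedekindDomain WeierstrassCurve WithZero

namespace Run7.h238.XK

open Run7.h555.Tam (exists_exp exp_sq vint vnat vadd vsub vmul vpow vaddl vsubl vmull vmulr vpowl)
open Run7.h555.G6 (AB)
open Run7.h555.P15 (NS Ic idx_disc idx_vc idx_I4ns)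
open Pool.Agent.Y700 (VR)
open Pool.Agent.H921R2.TatePole (below deg nm nm_eq)
open Pool.Agent.Y682.XF (kr)
open Run7.h555.XK (E base QF Cl MinimalAt nonsing c Tam)
open Run7.h741.XK (vv dense_R vv_lt vv_coe)

section field

variable {k : Type} [Field k] [CharZero k]

/-- the change of the equation -/
theorem vrE : VR (⟨0, -34, 0, 225, 0⟩ : WeierstrassCurve k) (base E k) 2 13 1 4 := by
  refine ⟨two_ne_zero, ?_, ?_, ?_, ?_, ?_⟩
  · show (2 : k) * ((1 : ℤ) : k) = 0 + 2 * 1
    push_cast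
    ring
  · show (2 : k) ^ 2 * ((1 : ℤ) : k) = -34 - 1 * 0 + 3 * 13 - 1 ^ 2
    push_cast
    ring
  · show (2 : k) ^ 3 * ((1 : ℤ) : k) = 0 + 13 * 0 + 2 * 4
    push_cast
    ring
  · show (2 : k) ^ 4 * ((-10 : ℤ) : k) = 225 - 1 * 0 + 2 * 13 * -34 - (4 + 13 * 1) * 0 + 3 * 13 ^ 2 -
      2 * 1 * 4
    push_cast
    ring
  · show (2 : k) ^ 6 * ((-10 : ℤ) : k) = 0 + 13 * 225 + 13 ^ 2 * -34 + 13 ^ 3 - 4 * 0 - 4 ^ 2 -
      13 * 4 * 0
    push_cast
    ring

/-- the discriminant -/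
theorem discE : (base E k).Δ = 3 ^ 4 * 5 ^ 4 := by
  have e : (base E k).Δ = ((E.Δ : ℤ) : k) := by
    rw [base, WeierstrassCurve.map_Δ]
    rfl
  have e2 : E.Δ = 3 ^ 4 * 5 ^ 4 := by
    unfold E WeierstrassCurve.Δ WeierstrassCurve.b₂ WeierstrassCurve.b₄ WeierstrassCurve.b₆
      WeierstrassCurve.b₈
    norm_num
  rw [e, e2]
  push_cast
  norm_num

end field

theorem bc (K : Type) [Field K] (k : Type) [Field k] [Algebra K k] :
    (base E K).baseChange k = base E k := by
  rw [WeierstrassCurve.baseChange, base, base, WeierstrassCurve.map_map]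
  congr 1
  exact RingHom.ext_int _ _

theorem icE {k : Type} [Field k] (v : Valuation k ℤᵐ⁰) : Ic (base E k) v :=
  ⟨vint _ _, vint _ _, vint _ _, vint _ _, vint _ _⟩

variable {K : Type} [Field K] [NumberField K] (v : HeightOneSpectrum (𝓞 K))

theorem nat_mem {m : ℕ} : ((m : ℕ) : 𝓞 K) ∈ v.asIdeal ↔ (below v : ℕ) ∣ m := by
  obtain ⟨-, -, hm⟩ := nm_eq v
  constructor
  · intro h
    by_contra hd
    have hc : Nat.Coprime (below v : ℕ) m := ((below v).2.coprime_iff_not_dvd).2 hd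
    have hz : IsCoprime ((below v : ℕ) : ℤ) (m : ℤ) := Nat.isCoprime_iff_coprime.2 hc
    obtain ⟨x, y, hxy⟩ := hz
    apply v.isPrime.ne_top
    rw [Ideal.eq_top_iff_one]
    have e : (1 : 𝓞 K) = (x : 𝓞 K) * ((below v : ℕ) : 𝓞 K) + (y : 𝓞 K) * ((m : ℕ) : 𝓞 K) := by
      exact_mod_cast congrArg (Int.cast : ℤ → 𝓞 K) hxy.symm
    rw [e]
    exact v.asIdeal.add_mem (v.asIdeal.mul_mem_left _ hm) (v.asIdeal.mul_mem_left _ h)
  · rintro ⟨k, rfl⟩
    push_cast
    exact v.asIdeal.mul_mem_right _ hm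

theorem val_one' {m : ℕ} (h : ¬ (below v : ℕ) ∣ m) : v.valuation K ((m : ℕ) : K) = 1 := by
  have e : ((m : ℕ) : K) = algebraMap (𝓞 K) K ((m : ℕ) : 𝓞 K) := by simp
  rw [e]
  refine le_antisymm (v.valuation_le_one _) ?_
  rw [← not_lt, HeightOneSpectrum.valuation_lt_one_iff_mem, nat_mem]
  exact h

theorem cv (x : K) : Valued.v (algebraMap K (v.adicCompletion K) x) = v.valuation K x :=
  HeightOneSpectrum.adicCompletion.valued_coe K v x

theorem cvn (m : ℕ) : Valued.v ((m : ℕ) : v.adicCompletion K) = v.valuation K ((m : ℕ) : K) := by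
  rw [← cv, map_natCast (algebraMap K (v.adicCompletion K))]

theorem cz : CharZero (v.adicCompletion K) :=
  charZero_of_injective_algebraMap (algebraMap K (v.adicCompletion K)).injective

/-- the residue field with three elements -/
theorem no_i (h3 : (below v : ℕ) = 3) (hd : deg v = 1) (t : v.adicCompletion K) :
    ¬ Valued.v (t ^ 2 + 1) < 1 := by
  intro ht
  have ht' : vv v (t ^ 2 + 1) < 1 := ht
  have h1 : vv v t ≤ 1 := by
    have h2 : vv v (t ^ 2) ≤ 1 := by
      have e : t ^ 2 = (t ^ 2 + 1) - 1 := by ring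
      rw [e]
      exact vsub ht'.le (by rw [map_one])
    rw [map_pow] at h2
    by_contra h6
    rw [not_le] at h6
    exact absurd h2 (not_le.2 (one_lt_pow₀ h6 two_ne_zero))
  obtain ⟨α, hα⟩ := dense_R v t h1
  have h4 : α ^ 2 + 1 ∈ v.asIdeal := by
    rw [← vv_lt (F := K) v, map_add, map_add, map_pow, map_pow, map_one, map_one]
    set β := algebraMap K (v.adicCompletion K) (algebraMap (𝓞 K) K α) with hβ
    have hβ1 : vv v β ≤ 1 := by
      rw [hβ, vv_coe]
      exact v.valuation_le_one _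
    have e : β ^ 2 + 1 = (t ^ 2 + 1) - (t - β) * (t + β) := by ring
    rw [e]
    exact vsubl ht' (vmulr hα (vadd h1 hβ1))
  -- the residue field
  obtain ⟨hn, -, -⟩ := nm_eq v
  rw [hd, h3, pow_one] at hn
  have hmax : v.asIdeal.IsMaximal := v.isPrime.isMaximal v.ne_bot
  let _ : Field (𝓞 K ⧸ v.asIdeal) := Ideal.Quotient.field v.asIdeal
  have hcard : Nat.card (𝓞 K ⧸ v.asIdeal) = 3 := hn
  have : Finite (𝓞 K ⧸ v.asIdeal) := Nat.finite_of_card_ne_zero (by rw [hcard]; norm_num)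
  let _ : Fintype (𝓞 K ⧸ v.asIdeal) := Fintype.ofFinite _
  have hcard' : Fintype.card (𝓞 K ⧸ v.asIdeal) = 3 := by rw [← Nat.card_eq_fintype_card, hcard]
  have h30 : (3 : 𝓞 K ⧸ v.asIdeal) = 0 := by
    have h5 : ((3 : ℕ) : 𝓞 K) ∈ v.asIdeal := (nat_mem v).2 (by rw [h3])
    have h6 := Ideal.Quotient.eq_zero_iff_mem.2 h5
    rw [map_natCast] at h6
    exact_mod_cast h6
  have h7 : (Ideal.Quotient.mk v.asIdeal α) ^ 2 + 1 = 0 := by
    have := Ideal.Quotient.eq_zero_iff_mem.2 h4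
    rwa [map_add, map_pow, map_one] at this
  by_cases h0 : Ideal.Quotient.mk v.asIdeal α = 0
  · rw [h0, zero_pow two_ne_zero, zero_add] at h7
    exact one_ne_zero h7
  · have h8 := FiniteField.pow_card_sub_one_eq_one (Ideal.Quotient.mk v.asIdeal α) h0
    rw [hcard'] at h8
    change (Ideal.Quotient.mk v.asIdeal α) ^ 2 = 1 at h8
    rw [h8] at h7
    apply one_ne_zero (α := 𝓞 K ⧸ v.asIdeal)
    linear_combination h30 - h7

theorem cl3 {n : ℕ} (h : Cl n) : kr (-(n : ℤ)) 3 = 1 ∧ ¬ 3 ∣ n := by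
  have h2 := h.2
  refine ⟨?_, by omega⟩
  have e : (-(n : ℤ)) % 3 = 1 := by omega
  unfold kr
  rw [if_neg (by norm_num), jacobiSym.mod_left]
  norm_num [e]

theorem cl5 {n : ℕ} (h : Cl n) : kr (-(n : ℤ)) 5 = -1 ∧ ¬ 5 ∣ n := by
  have h2 := h.2
  refine ⟨?_, by omega⟩
  unfold kr
  rw [if_neg (by norm_num), jacobiSym.mod_left]
  rcases h2 with h2 | h2
  · have e : (-(n : ℤ)) % (5 : ℕ) = 2 := by omega
    rw [e]
    norm_num
  · have e : (-(n : ℤ)) % (5 : ℕ) = 3 := by omega
    rw [e]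
    norm_num

/-- the discriminant at a place -/
theorem val_disc {n : ℕ} (hc : Cl n)
    (hv : ∀ p : Nat.Primes, ¬ (p : ℕ) ∣ n → below v = p →
      v.valuation K ((p : ℕ) : K) = exp (-1 : ℤ)) :
    ∃ k : ℤ, 0 ≤ k ∧ k < 12 ∧ v.valuation K (base E K).Δ = exp (-k) := by
  have e3 : (3 : K) = ((3 : ℕ) : K) := by norm_num
  have e5 : (5 : K) = ((5 : ℕ) : K) := by norm_num
  rw [discE, map_mul, map_pow, map_pow, e3, e5]
  by_cases h3 : (below v : ℕ) = 3
  · have w3 := hv (below v) (by rw [h3]; exact (cl3 hc).2) rfl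
    rw [h3] at w3
    rw [w3, val_one' v (m := 5) (by rw [h3]; norm_num), one_pow, mul_one, ← exp_nsmul]
    exact ⟨4, by norm_num, by norm_num, by norm_num⟩
  · by_cases h5 : (below v : ℕ) = 5
    · have w5 := hv (below v) (by rw [h5]; exact (cl5 hc).2) rfl
      rw [h5] at w5
      rw [w5, val_one' v (m := 3) (by rw [h5]; norm_num), one_pow, one_mul, ← exp_nsmul]
      exact ⟨4, by norm_num, by norm_num, by norm_num⟩
    · rw [val_one' v (m := 5) (fun h => h5 ((Nat.prime_dvd_prime_iff_eq (below v).2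
        Nat.prime_five).1 h)), val_one' v (m := 3) (fun h => h3 ((Nat.prime_dvd_prime_iff_eq
        (below v).2 Nat.prime_three).1 h)), one_pow, mul_one]
      exact ⟨0, le_rfl, by norm_num, by simp⟩

/-- integral discriminants -/
theorem disc_int {F : Type} [Field F] (w : Valuation F ℤᵐ⁰) (W : WeierstrassCurve F) (h1 : w W.a₁ ≤ 1)
    (h2 : w W.a₂ ≤ 1) (h3 : w W.a₃ ≤ 1) (h4 : w W.a₄ ≤ 1) (h6 : w W.a₆ ≤ 1) : w W.Δ ≤ 1 := by
  have n4 : w (4 : F) ≤ 1 := by exact_mod_cast vnat w 4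
  have n2 : w (2 : F) ≤ 1 := by exact_mod_cast vnat w 2
  have n8 : w (8 : F) ≤ 1 := by exact_mod_cast vnat w 8
  have n27 : w (27 : F) ≤ 1 := by exact_mod_cast vnat w 27
  have n9 : w (9 : F) ≤ 1 := by exact_mod_cast vnat w 9
  have hb2 : w W.b₂ ≤ 1 := by
    unfold WeierstrassCurve.b₂
    exact vadd (vpow h1 2) (vmul n4 h2)
  have hb4 : w W.b₄ ≤ 1 := by
    unfold WeierstrassCurve.b₄
    exact vadd (vmul n2 h4) (vmul h1 h3)
  have hb6 : w W.b₆ ≤ 1 := by
    unfold WeierstrassCurve.b₆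
    exact vadd (vpow h3 2) (vmul n4 h6)
  have hb8 : w W.b₈ ≤ 1 := by
    unfold WeierstrassCurve.b₈
    exact vsub (vadd (vsub (vadd (vmul (vpow h1 2) h6) (vmul (vmul n4 h2) h6))
      (vmul (vmul h1 h3) h4)) (vmul h2 (vpow h3 2))) (vpow h4 2)
  unfold WeierstrassCurve.Δ
  refine vadd (vsub (vsub ?_ (vmul n8 (vpow hb4 3))) (vmul n27 (vpow hb6 2)))
    (vmul (vmul (vmul n9 hb2) hb4) hb6)
  rw [neg_mul, Valuation.map_neg]
  exact vmul (vpow hb2 2) hb8

/-- **MINK** -/
theorem t_MINK : Run7.h555.XK.S_MINK := by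
  intro hP K _ _ n hq hc v C h1 h2 h3 h4 h6
  have hint := disc_int (v.valuation K) (C • base E K) h1 h2 h3 h4 h6
  obtain ⟨k, hk0, hk, hd⟩ := val_disc v hc
    (fun p hp hb => (hP K n hq hc.1 (by have := hc.2; omega) p).2.2.2 hp v hb)
  rw [variableChange_Δ, map_mul, map_pow, hd] at hint ⊢
  classical
  obtain ⟨l, hl⟩ := exists_exp (v.valuation K) (C.u⁻¹).ne_zero
  rw [hl, ← exp_nsmul, ← exp_add] at hint ⊢
  rw [← exp_zero, exp_le_exp] at hint
  rw [exp_le_exp]
  simp only [nsmul_eq_mul] at hint ⊢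
  push_cast at hint ⊢
  omega

theorem hABE {k : Type} [Field k] [CharZero k] :
    AB (⟨0, -34, 0, 225, 0⟩ : WeierstrassCurve k) (-34) 225 :=
  ⟨rfl, rfl, rfl, rfl, rfl, by norm_num⟩

/-- the local numbers -/
theorem c_eq {n : ℕ} (hc : Cl n)
    (hv : ∀ p : Nat.Primes, ¬ (p : ℕ) ∣ n → below v = p →
      v.valuation K ((p : ℕ) : K) = exp (-1 : ℤ)) (h3d : (below v : ℕ) = 3 → deg v = 1) :
    c (base E K) v = if (below v : ℕ) = 3 then 2 else if (below v : ℕ) = 5 then 4 else 1 := by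
  have := cz v
  have hVR : VR (⟨0, -34, 0, 225, 0⟩ : WeierstrassCurve (v.adicCompletion K))
      ((base E K).baseChange (v.adicCompletion K)) 2 13 1 4 := by
    rw [bc]
    exact vrE
  have hI : Ic ((base E K).baseChange (v.adicCompletion K)) Valued.v := by
    rw [bc]
    exact icE _
  have hΔ : ((base E K).baseChange (v.adicCompletion K)).Δ = 3 ^ 4 * 5 ^ 4 := by
    rw [bc]
    exact discE
  have hΔ0 : ((base E K).baseChange (v.adicCompletion K)).Δ ≠ 0 := by
    rw [hΔ]
    norm_num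
  have e3 : (3 : v.adicCompletion K) = ((3 : ℕ) : v.adicCompletion K) := by norm_num
  have e5 : (5 : v.adicCompletion K) = ((5 : ℕ) : v.adicCompletion K) := by norm_num
  have v1 : ∀ m : ℕ, ¬ (below v : ℕ) ∣ m → Valued.v ((m : ℕ) : v.adicCompletion K) = 1 := by
    intro m hm
    rw [cvn, val_one' v hm]
  have v13 : Valued.v (13 : v.adicCompletion K) ≤ 1 := by
    exact_mod_cast vnat (Valued.v : Valuation (v.adicCompletion K) ℤᵐ⁰) 13
  have hs1 : Valued.v (1 : v.adicCompletion K) ≤ 1 := by rw [map_one]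
  have mv : Valued.v (2 : v.adicCompletion K) = 1 → ∀ m : ℕ,
      (letI : DecidableEq (v.adicCompletion K) := Classical.decEq _
      (AddSubgroup.closure (NS
        (⟨0, -34, 0, 225, 0⟩ : WeierstrassCurve (v.adicCompletion K)) Valued.v)).index) = m →
      c (base E K) v = m := by
    intro h2 m hm
    rw [← hm]
    exact @idx_vc _ _ _ _ (Classical.decEq _) Valued.v _ _ _ _ hVR hΔ0 h2 v13 hs1 hI
  split_ifs with h3 h5
  · have h2 : Valued.v (2 : v.adicCompletion K) = 1 := by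
      have := v1 2 (by rw [h3]; norm_num)
      exact_mod_cast this
    have w3 : Valued.v (3 : v.adicCompletion K) = exp (-1) := by
      have := hv (below v) (by rw [h3]; exact (cl3 hc).2) rfl
      rw [e3, cvn, ← h3, this]
    have w25 : Valued.v (25 : v.adicCompletion K) = 1 := by
      have := v1 25 (by rw [h3]; norm_num)
      exact_mod_cast this
    refine mv h2 2 ?_
    refine @idx_I4ns _ _ _ (Classical.decEq _) Valued.v _ _ hABE h2 25 9 (by norm_num)
      (by norm_num) w25 ?_ ?_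
    · have e9 : (9 : v.adicCompletion K) = 3 ^ 2 := by norm_num
      rw [e9, map_pow, w3, exp_sq]
      norm_num
    · intro s hs
      apply no_i v h3 (h3d h3) s
      have e7 : s ^ 2 + 1 = -(-25 - s ^ 2) - 3 * 8 := by ring
      rw [e7]
      refine vsubl (by rw [Valuation.map_neg]; exact hs) (vmulr ?_ ?_)
      · rw [w3, ← exp_zero, exp_lt_exp]
        norm_num
      · exact_mod_cast vnat (Valued.v : Valuation (v.adicCompletion K) ℤᵐ⁰) 8
  · have h2 : Valued.v (2 : v.adicCompletion K) = 1 := by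
      have := v1 2 (by rw [h5]; norm_num)
      exact_mod_cast this
    have w5 : Valued.v (5 : v.adicCompletion K) = exp (-1) := by
      have := hv (below v) (by rw [h5]; exact (cl5 hc).2) rfl
      rw [e5, cvn, ← h5, this]
    have w9 : Valued.v (9 : v.adicCompletion K) = 1 := by
      have := v1 9 (by rw [h5]; norm_num)
      exact_mod_cast this
    have hns : (⟨0, -34, 0, 225, 0⟩ : WeierstrassCurve (v.adicCompletion K)).toAffine.Nonsingular
        5 20 := by
      rw [Affine.nonsingular_iff, Affine.equation_iff]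
      refine ⟨?_, Or.inr ?_⟩
      · show (20 : v.adicCompletion K) ^ 2 + 0 * 5 * 20 + 0 * 20 = 5 ^ 3 + -34 * 5 ^ 2 + 225 * 5 + 0
        norm_num
      · show (20 : v.adicCompletion K) ≠ -20 - 0 * 5 - 0
        norm_num
    refine mv h2 4 ?_
    refine @idx_I4s _ _ _ _ _ (Classical.decEq _) Valued.v hABE h2 9 25 (by norm_num)
      (by norm_num) w9 ?_ 5 20 hns w5
    have e9 : (25 : v.adicCompletion K) = 5 ^ 2 := by norm_num
    rw [e9, map_pow, w5, exp_sq]
    norm_num
  · refine @idx_disc _ _ _ (Classical.decEq _) Valued.v hI ?_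
    rw [hΔ, map_mul, map_pow, map_pow, e3, e5,
      v1 5 (fun h => h5 ((Nat.prime_dvd_prime_iff_eq (below v).2 Nat.prime_five).1 h)),
      v1 3 (fun h => h3 ((Nat.prime_dvd_prime_iff_eq (below v).2 Nat.prime_three).1 h)), one_pow,
      one_mul]

/-- **TAMK** -/
theorem t_TAMK : Run7.h555.XK.S_TAMK := by
  classical
  intro hP K _ _ n hq hc
  have h4 : n % 4 = 3 := by
    have := hc.2
    omega
  set p3 : Nat.Primes := ⟨3, Nat.prime_three⟩ with hp3
  set p5 : Nat.Primes := ⟨5, Nat.prime_five⟩ with hp5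
  obtain ⟨d3, n3⟩ := (hP K n hq hc.1 h4 p3).1 (cl3 hc).1 (cl3 hc).2
  obtain ⟨-, n5⟩ := (hP K n hq hc.1 h4 p5).2.1 (cl5 hc).1 (cl5 hc).2
  have hloc : ∀ v : HeightOneSpectrum (𝓞 K), c (base E K) v =
      if (below v : ℕ) = 3 then 2 else if (below v : ℕ) = 5 then 4 else 1 := fun v =>
    c_eq v hc (fun p hp hb => (hP K n hq hc.1 h4 p).2.2.2 hp v hb)
      (fun h => d3 v (Subtype.ext h))
  set S3 : Set (HeightOneSpectrum (𝓞 K)) := {v | below v = p3} with hS3
  set S5 : Set (HeightOneSpectrum (𝓞 K)) := {v | below v = p5} with hS5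
  have m3 : S3.ncard = 2 := n3
  have m5 : S5.ncard = 1 := n5
  have f3 : S3.Finite := Set.finite_of_ncard_ne_zero (by rw [m3]; norm_num)
  have f5 : S5.Finite := Set.finite_of_ncard_ne_zero (by rw [m5]; norm_num)
  have hdis : Disjoint f3.toFinset f5.toFinset := by
    rw [Finset.disjoint_left]
    intro v h1 h2
    rw [Set.Finite.mem_toFinset] at h1 h2
    have e : p3 = p5 := (show below v = p3 from h1).symm.trans h2
    have := congrArg (fun r : Nat.Primes => (r : ℕ)) e
    norm_num [hp3, hp5] at this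
  unfold Tam
  rw [finprod_eq_prod_of_mulSupport_subset (s := f3.toFinset ∪ f5.toFinset)]
  · rw [Finset.prod_union hdis, Finset.prod_congr rfl (g := fun _ => 2),
      Finset.prod_congr (s₁ := f5.toFinset) rfl (g := fun _ => 4), Finset.prod_const,
      Finset.prod_const, ← Set.ncard_eq_toFinset_card _ f3, ← Set.ncard_eq_toFinset_card _ f5,
      m3, m5]
    · norm_num
    · intro v hv
      rw [Set.Finite.mem_toFinset] at hv
      have e : (below v : ℕ) = 5 := congrArg (fun r : Nat.Primes => (r : ℕ)) hv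
      rw [hloc, if_neg (by rw [e]; norm_num), if_pos e]
    · intro v hv
      rw [Set.Finite.mem_toFinset] at hv
      have e : (below v : ℕ) = 3 := congrArg (fun r : Nat.Primes => (r : ℕ)) hv
      rw [hloc, if_pos e]
  · intro v hv
    rw [Finset.coe_union, Set.Finite.coe_toFinset, Set.Finite.coe_toFinset]
    by_contra hn
    apply hv
    rw [Set.mem_union, not_or] at hn
    rw [hloc, if_neg (fun h => hn.1 (Subtype.ext h)), if_neg (fun h => hn.2 (Subtype.ext h))]

end Run7.h238.XK
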