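import Pool.Agent.Run7.h555.XK.Stm
import Pool.Agent.Run7.h741.MF.Fin
import Pool.Agent.Run7.h209.P15.Tors

/-!
# Project XK: the value at the centre is a quarter of the real period
-/

set_option autoImplicit false

open Filter Topology Set

namespace Run7.h238.XK

open Pool.Agent.Run7.h741.MF
open Pool.Agent.W97.TW (Q Q_zero Q_diff)
open Pool.Agent.W97.MT (qq Q_ne norm_qq norm_qq_lt line_im line_re iI iI_pos iI_eventually)

/-! ### The Euler function at real points -/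

theorem prod_bounds {x : ℝ} (h0 : 0 ≤ x) (h1 : x < 1) (n : ℕ) :
    0 ≤ ∏ i ∈ Finset.range n, (1 - x ^ (i + 1)) ∧ ∏ i ∈ Finset.range n, (1 - x ^ (i + 1)) ≤ 1 ∧
    1 - ∑ i ∈ Finset.range n, x ^ (i + 1) ≤ ∏ i ∈ Finset.range n, (1 - x ^ (i + 1)) := by
  induction n with
  | zero => simp
  | succ n ih =>
    obtain ⟨a1, a2, a3⟩ := ih
    have b0 : 0 ≤ x ^ (n + 1) := pow_nonneg h0 _
    have b1 : x ^ (n + 1) ≤ 1 := pow_le_one₀ h0 h1.le
    rw [Finset.prod_range_succ, Finset.sum_range_succ]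
    refine ⟨mul_nonneg a1 (by linarith), ?_, ?_⟩
    · nlinarith
    · nlinarith

theorem sum_bound {x : ℝ} (h0 : 0 ≤ x) (h1 : x < 1) (n : ℕ) :
    ∑ i ∈ Finset.range n, x ^ (i + 1) ≤ x / (1 - x) := by
  have hg := hasSum_geometric_of_lt_one h0 h1
  have h2 : ∑ i ∈ Finset.range n, x ^ i ≤ (1 - x)⁻¹ :=
    sum_le_hasSum _ (fun i _ => pow_nonneg h0 i) hg
  have h3 : ∑ i ∈ Finset.range n, x ^ (i + 1) = x * ∑ i ∈ Finset.range n, x ^ i := by
    rw [Finset.mul_sum]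
    exact Finset.sum_congr rfl fun i _ => by ring
  rw [h3, div_eq_mul_inv]
  exact mul_le_mul_of_nonneg_left h2 h0

theorem Q_real {x : ℝ} (h0 : 0 ≤ x) (h1 : x < 1) :
    ∃ r : ℝ, Q (x : ℂ) = r ∧ 0 < r ∧ r ≤ 1 ∧ 1 - x / (1 - x) ≤ r := by
  have hs : Summable fun i : ℕ => -x ^ (i + 1) := by
    have := (summable_geometric_of_lt_one h0 h1).mul_left (-x)
    refine this.congr fun i => ?_
    ring
  have hm : Multipliable fun i : ℕ => 1 - x ^ (i + 1) := by
    have := Real.multipliable_one_add_of_summable hs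
    refine this.congr fun i => ?_
    ring
  obtain ⟨r, hr⟩ := hm
  have hc : HasProd (fun i : ℕ => (1 : ℂ) - (x : ℂ) ^ (i + 1)) (r : ℂ) := by
    have h3 := hr.map Complex.ofRealHom Complex.continuous_ofReal
    have e : (fun i : ℕ => (1 : ℂ) - (x : ℂ) ^ (i + 1)) =
        Complex.ofRealHom ∘ (fun i : ℕ => 1 - x ^ (i + 1)) := by
      funext i
      simp
    rw [e]
    exact h3
  have hQ : Q (x : ℂ) = r := hc.tprod_eq
  have ht := hr.tendsto_prod_nat
  have r0 : 0 ≤ r := ge_of_tendsto' ht fun n => (prod_bounds h0 h1 n).1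
  have rn : r ≠ 0 := by
    intro h
    have hn : Q (x : ℂ) ≠ 0 := Q_ne (by rw [Complex.norm_real, Real.norm_eq_abs, abs_of_nonneg h0]; exact h1)
    rw [hQ, h] at hn
    exact hn Complex.ofReal_zero
  refine ⟨r, hQ, lt_of_le_of_ne r0 rn.symm, le_of_tendsto' ht fun n => (prod_bounds h0 h1 n).2.1,
    ge_of_tendsto' ht fun n => ?_⟩
  have h2 := (prod_bounds h0 h1 n).2.2
  have h3 := sum_bound h0 h1 n
  linarith

theorem Q_real_pow {x : ℝ} (h0 : 0 ≤ x) (h1 : x < 1) {d : ℕ} (hd : d ≠ 0) :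
    ∃ r : ℝ, Q ((x : ℂ) ^ d) = r ∧ 0 < r ∧ r ≤ 1 ∧ 1 - x ^ d / (1 - x ^ d) ≤ r := by
  have h2 := Q_real (pow_nonneg h0 d) (pow_lt_one₀ h0 h1 hd)
  push_cast at h2
  exact h2

/-- the point `i t` -/
theorem qq_it (t : ℝ) : qq (t * Complex.I) = ((Real.exp (-(2 * Real.pi * t)) : ℝ) : ℂ) := by
  unfold qq
  rw [Complex.ofReal_exp]
  congr 1
  push_cast
  linear_combination (2 * (Real.pi : ℂ) * t) * Complex.I_mul_I

theorem it_im (t : ℝ) : ((t : ℂ) * Complex.I).im = t := by simp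

theorem q_bounds {t : ℝ} (ht : 0 < t) :
    0 < Real.exp (-(2 * Real.pi * t)) ∧ Real.exp (-(2 * Real.pi * t)) < 1 := by
  refine ⟨Real.exp_pos _, ?_⟩
  rw [Real.exp_lt_one_iff]
  have := mul_pos (mul_pos two_pos Real.pi_pos) ht
  linarith

/-- the form is positive on the imaginary axis -/
theorem ff_pos {t : ℝ} (ht : 0 < t) : ∃ r : ℝ, 0 < r ∧ ff (t * Complex.I) = r := by
  obtain ⟨q0, q1⟩ := q_bounds ht
  set x := Real.exp (-(2 * Real.pi * t)) with hx
  obtain ⟨r1, e1, p1, -⟩ := Q_real q0.le q1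
  obtain ⟨r3, e3, p3, -⟩ := Q_real_pow q0.le q1 (d := 3) (by norm_num)
  obtain ⟨r5, e5, p5, -⟩ := Q_real_pow q0.le q1 (d := 5) (by norm_num)
  obtain ⟨r15, e15, p15, -⟩ := Q_real_pow q0.le q1 (d := 15) (by norm_num)
  refine ⟨x * (r1 * r3 * r5 * r15), by positivity, ?_⟩
  rw [ff_q, qq_it, ← hx]
  unfold phi
  rw [e1, e3, e5, e15]
  push_cast
  rfl

/-- the function `x + 1` is large near infinity -/
theorem X1_gt {t : ℝ} (ht : 1 / 4 ≤ t) : X1 (t * Complex.I) ≠ 9 := by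
  have ht0 : 0 < t := by linarith
  obtain ⟨q0, q1⟩ := q_bounds ht0
  have hq : Real.exp (-(2 * Real.pi * t)) ≤ 1 / 4 := by
    have h1 : -(2 * Real.pi * t) ≤ -(3 / 2) := by
      have := Real.pi_gt_three
      nlinarith
    refine (Real.exp_le_exp.2 h1).trans ?_
    rw [Real.exp_neg]
    have h2 : (4 : ℝ) ≤ Real.exp (3 / 2) := by
      have h3 : (2.7182818283 : ℝ) < Real.exp 1 := Real.exp_one_gt_d9
      have h4 : Real.exp (3 / 2) ^ 2 = Real.exp 1 ^ 3 := by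
        rw [← Real.exp_nat_mul, ← Real.exp_nat_mul]
        norm_num
      have h5 : (16 : ℝ) ≤ Real.exp 1 ^ 3 := by
        calc (16 : ℝ) ≤ (2.7182818283 : ℝ) ^ 3 := by norm_num
          _ ≤ Real.exp 1 ^ 3 := pow_le_pow_left₀ (by norm_num) h3.le 3
      rw [← h4] at h5
      nlinarith [Real.exp_pos (3 / 2)]
    rw [one_div]
    exact inv_anti₀ (by norm_num) h2
  set x := Real.exp (-(2 * Real.pi * t)) with hx
  obtain ⟨r1, e1, p1, l1, -⟩ := Q_real q0.le q1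
  obtain ⟨r3, e3, p3, l3, g3⟩ := Q_real_pow q0.le q1 (d := 3) (by norm_num)
  obtain ⟨r5, e5, p5, l5, g5⟩ := Q_real_pow q0.le q1 (d := 5) (by norm_num)
  obtain ⟨r15, e15, p15, l15, -⟩ := Q_real_pow q0.le q1 (d := 15) (by norm_num)
  have hX : X1 (t * Complex.I) = ((r1⁻¹ * r3 * r5 ^ 5 * (r15 ^ 5)⁻¹ / x ^ 2 : ℝ) : ℂ) := by
    rw [X1_q (by rw [it_im]; exact ht0), qq_it, ← hx]
    unfold xi
    rw [e1, e3, e5, e15]
    push_cast
    rfl
  intro h9
  rw [hX] at h9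
  have h9' : r1⁻¹ * r3 * r5 ^ 5 * (r15 ^ 5)⁻¹ / x ^ 2 = 9 := by exact_mod_cast h9
  have b3 : (9 : ℝ) / 10 ≤ r3 := by
    have hx3 : x ^ 3 ≤ 1 / 64 := by
      calc x ^ 3 ≤ (1 / 4) ^ 3 := pow_le_pow_left₀ q0.le hq 3
        _ = 1 / 64 := by norm_num
    have : x ^ 3 / (1 - x ^ 3) ≤ 1 / 10 := by
      rw [div_le_div_iff₀ (by linarith) (by norm_num)]
      linarith
    linarith
  have b5 : (99 : ℝ) / 100 ≤ r5 := by
    have hx5 : x ^ 5 ≤ 1 / 1024 := by
      calc x ^ 5 ≤ (1 / 4) ^ 5 := pow_le_pow_left₀ q0.le hq 5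
        _ = 1 / 1024 := by norm_num
    have : x ^ 5 / (1 - x ^ 5) ≤ 1 / 100 := by
      rw [div_le_div_iff₀ (by linarith) (by norm_num)]
      linarith
    linarith
  have c5 : (8 : ℝ) / 10 ≤ r5 ^ 5 := by
    calc (8 : ℝ) / 10 ≤ (99 / 100) ^ 5 := by norm_num
      _ ≤ r5 ^ 5 := pow_le_pow_left₀ (by norm_num) b5 5
  have i1 : 1 ≤ r1⁻¹ := (one_le_inv₀ p1).2 l1
  have i15 : 1 ≤ (r15 ^ 5)⁻¹ := (one_le_inv₀ (by positivity)).2 (pow_le_one₀ p15.le l15)
  have hx2 : x ^ 2 ≤ 1 / 16 := by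
    calc x ^ 2 ≤ (1 / 4) ^ 2 := pow_le_pow_left₀ q0.le hq 2
      _ = 1 / 16 := by norm_num
  have hN : (72 : ℝ) / 100 ≤ r1⁻¹ * r3 * r5 ^ 5 * (r15 ^ 5)⁻¹ := by
    have s1 : (9 : ℝ) / 10 ≤ r1⁻¹ * r3 := by nlinarith
    have s2 : (72 : ℝ) / 100 ≤ r1⁻¹ * r3 * r5 ^ 5 := by
      calc (72 : ℝ) / 100 = 9 / 10 * (8 / 10) := by norm_num
        _ ≤ r1⁻¹ * r3 * r5 ^ 5 := mul_le_mul s1 c5 (by norm_num) (by linarith)
    calc (72 : ℝ) / 100 ≤ r1⁻¹ * r3 * r5 ^ 5 := s2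
      _ = r1⁻¹ * r3 * r5 ^ 5 * 1 := (mul_one _).symm
      _ ≤ r1⁻¹ * r3 * r5 ^ 5 * (r15 ^ 5)⁻¹ := mul_le_mul_of_nonneg_left i15 (by linarith)
  rw [div_eq_iff (by positivity)] at h9'
  nlinarith

/-! ### The primitive on the imaginary axis -/

theorem F_it_im {t : ℝ} (ht : 0 < t) : (F (t * Complex.I)).im = 0 := by
  have h := F_conj (z := (t : ℂ) * Complex.I) (by rw [it_im]; exact ht)
  have e : -(starRingEnd ℂ) ((t : ℂ) * Complex.I) = t * Complex.I := by
    rw [map_mul, Complex.conj_ofReal, Complex.conj_I]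
    ring
  rw [e] at h
  have := congrArg Complex.im h
  rw [Complex.conj_im] at this
  linarith

/-- the primitive along the axis -/
noncomputable def fr (t : ℝ) : ℝ := (F (t * Complex.I)).re

theorem F_it {t : ℝ} (ht : 0 < t) : F (t * Complex.I) = (fr t : ℂ) := by
  apply Complex.ext
  · rfl
  · rw [F_it_im ht, Complex.ofReal_im]

theorem fr_deriv {t : ℝ} (ht : 0 < t) : ∃ d : ℝ, d < 0 ∧ HasDerivAt fr d t := by
  obtain ⟨r, hr, e⟩ := ff_pos ht
  have h1 := F_deriv (z := (t : ℂ) * Complex.I) (by rw [it_im]; exact ht)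
  have h2 : HasDerivAt (fun s : ℝ => (s : ℂ) * Complex.I) (1 * Complex.I) t :=
    (Complex.ofRealCLM.hasDerivAt (x := t)).mul_const Complex.I
  have h3 := h1.comp t h2
  rw [e] at h3
  have e2 : 2 * Real.pi * Complex.I * (r : ℂ) * (1 * Complex.I) = ((-(2 * Real.pi * r) : ℝ) : ℂ) := by
    push_cast
    linear_combination (2 * (Real.pi : ℂ) * r) * Complex.I_mul_I
  rw [e2] at h3
  refine ⟨-(2 * Real.pi * r), by have := mul_pos (mul_pos two_pos Real.pi_pos) hr; linarith, ?_⟩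
  have h4 : HasDerivAt fr (Complex.reCLM ((-(2 * Real.pi * r) : ℝ) : ℂ)) t :=
    Complex.reCLM.hasFDerivAt.comp_hasDerivAt t h3
  rw [Complex.reCLM_apply, Complex.ofReal_re] at h4
  exact h4

theorem fr_cont : ContinuousOn fr (Ioi 0) := fun t ht => by
  obtain ⟨d, -, h⟩ := fr_deriv ht
  exact h.continuousAt.continuousWithinAt

theorem fr_anti : StrictAntiOn fr (Ioi 0) := by
  refine strictAntiOn_of_deriv_neg (convex_Ioi 0) fr_cont fun t ht => ?_
  rw [interior_Ioi] at ht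
  obtain ⟨d, hd, h⟩ := fr_deriv ht
  rw [h.deriv]
  exact hd

theorem fr_lim : Tendsto fr atTop (𝓝 0) := by
  have h := F_line_tendsto 0
  have h2 := (Complex.continuous_re.tendsto 0).comp h
  rw [Complex.zero_re] at h2
  refine h2.congr fun t => ?_
  simp [fr]

theorem fr_pos {t : ℝ} (ht : 0 < t) : 0 < fr t := by
  have h1 : fr (t + 1) < fr t := fr_anti ht (by show (0 : ℝ) < t + 1; linarith) (by linarith)
  refine lt_of_le_of_lt ?_ h1
  refine le_of_tendsto fr_lim ?_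
  filter_upwards [eventually_gt_atTop (t + 1)] with s hs
  exact (fr_anti (show (0 : ℝ) < t + 1 by linarith) (show (0 : ℝ) < s by linarith) hs).le

/-- the value at the fixed point of the involution -/
theorem fr_fix : II 0 = ((2 * fr (1 / √15) : ℝ) : ℂ) ∨ II 0 = 0 := by
  have h15 : 0 < √(15 : ℝ) := Real.sqrt_pos.2 (by norm_num)
  have hs : (√(15 : ℝ) : ℂ) ^ 2 = 15 := by
    exact_mod_cast Real.sq_sqrt (show (0 : ℝ) ≤ 15 by norm_num)
  have hs0 : (√(15 : ℝ) : ℂ) ≠ 0 := by exact_mod_cast h15.ne'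
  have ht : 0 < 1 / √(15 : ℝ) := by positivity
  obtain ⟨ε, C, hε, -, hF⟩ := (isCusp15 hcp hqe).map.const
  have hC : C = II 0 := by
    rw [II_zero]
    have h1 : Tendsto (fun z => ε * F z + C) iI (𝓝 (ε * 0 + C)) :=
      (F_QV.tendsto.const_mul ε).add_const C
    have h2 := C0_lim.congr' (iI_pos.mono fun z hz => hF z hz)
    have := tendsto_nhds_unique h1 h2
    rw [mul_zero, zero_add] at this
    exact this
  have hfix : m15 (((1 / √(15 : ℝ) : ℝ) : ℂ) * Complex.I) = ((1 / √(15 : ℝ) : ℝ) : ℂ) * Complex.I := by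
    unfold m15
    push_cast
    field_simp
    rw [Complex.I_sq, ← hs]
    ring
  have h3 := hF (((1 / √(15 : ℝ) : ℝ) : ℂ) * Complex.I) (by rw [it_im]; exact ht)
  rw [hfix, F_it ht, hC] at h3
  rcases hε with rfl | rfl
  · right
    linear_combination -h3
  · left
    push_cast
    linear_combination -h3

/-- **W0** -/
theorem t_W0 : Run7.h555.XK.S_W0 := by
  intro L Op Om hOp hOm g2 g3 hL
  have m_tors := Run7.h209.P15.m_tors
  obtain ⟨i1, i2, i4, -, -⟩ := integrals hcp hqe hode L g2 g3 hinj m_tors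
  have hval : L.weierstrassP (II 0) = 101 / 12 := by
    obtain ⟨-, h2⟩ := cusp_value hcp hqe hode L g2 g3 (isCusp15 hcp hqe) C0_lim
    rw [II_zero, h2]
    norm_num
  have hne : II 0 ≠ 0 := fun h => i1 (by rw [h]; exact zero_mem _)
  have hfix := fr_fix.resolve_right hne
  have h15 : 0 < √(15 : ℝ) := Real.sqrt_pos.2 (by norm_num)
  have ht0 : 0 < 1 / √(15 : ℝ) := by positivity
  set t0 := 1 / √(15 : ℝ) with ht0d
  have ht04 : 1 / 4 ≤ t0 := by
    rw [ht0d]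
    apply one_div_le_one_div_of_le h15
    rw [Real.sqrt_le_left (by norm_num)]
    norm_num
  -- a multiple of a quarter of the period
  obtain ⟨a, b, hab⟩ := (hL _).1 i4
  have hc : II 0 = ((a * Op / 4 : ℝ) : ℂ) := by
    have h1 := congrArg Complex.re hab
    rw [hfix] at h1
    have h2 : (4 * ((2 * fr t0 : ℝ) : ℂ)).re = 4 * (2 * fr t0) := by
      rw [show (4 : ℂ) = ((4 : ℝ) : ℂ) by norm_num, ← Complex.ofReal_mul, Complex.ofReal_re]
    have h3 : ((a : ℂ) * (Op : ℂ) + (b : ℂ) * (Om : ℂ) * Complex.I).re = a * Op := by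
      simp
    rw [h2, h3] at h1
    rw [hfix]
    congr 1
    linarith
  have hfr : 2 * fr t0 = a * Op / 4 := by
    rw [hfix] at hc
    exact_mod_cast hc
  have hapos : 0 < a := by
    have := fr_pos ht0
    by_contra h
    rw [not_lt] at h
    have h' : (a : ℝ) ≤ 0 := by exact_mod_cast h
    nlinarith
  have hodd : ¬ (2 : ℤ) ∣ a := by
    rintro ⟨k, rfl⟩
    apply i2
    rw [hL]
    refine ⟨k, 0, ?_⟩
    rw [hc]
    push_cast
    ring
  -- the point with the same value of the function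
  have hquart : L.weierstrassP ((Op / 4 : ℝ) : ℂ) = 101 / 12 := by
    rw [← hval, hc]
    have hper : ∀ (k : ℤ) (x : ℂ), L.weierstrassP (x + k * Op) = L.weierstrassP x := by
      intro k x
      have hk : (k : ℂ) * Op ∈ L.lattice := (hL _).2 ⟨k, 0, by push_cast; ring⟩
      exact L.weierstrassP_add_coe x ⟨_, hk⟩
    obtain ⟨k, hk⟩ : ∃ k : ℤ, a = 4 * k + 1 ∨ a = 4 * k - 1 := by
      refine ⟨(a + 1) / 4, ?_⟩
      have : a % 2 = 1 := by omega
      omega
    rcases hk with hk | hk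
    · have e : ((a * Op / 4 : ℝ) : ℂ) = ((Op / 4 : ℝ) : ℂ) + k * Op := by
        rw [hk]
        push_cast
        ring
      rw [e, hper]
    · have e : ((a * Op / 4 : ℝ) : ℂ) = -((Op / 4 : ℝ) : ℂ) + k * Op := by
        rw [hk]
        push_cast
        ring
      rw [e, hper, L.weierstrassP_neg]
  by_cases ha3 : 3 ≤ a
  · exfalso
    have ha3' : (3 : ℝ) ≤ a := by exact_mod_cast ha3
    have hbig : Op / 4 < fr t0 := by nlinarith
    obtain ⟨T, hT1, hT2⟩ : ∃ T : ℝ, t0 < T ∧ fr T < Op / 4 := by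
      have h1 := fr_lim.eventually (gt_mem_nhds (show (0 : ℝ) < Op / 4 by positivity))
      exact ((eventually_gt_atTop t0).and h1).exists
    have hcont : ContinuousOn fr (Icc t0 T) := fr_cont.mono fun s hs => lt_of_lt_of_le ht0 hs.1
    obtain ⟨s, hs1, hs2⟩ := intermediate_value_Icc' hT1.le hcont ⟨hT2.le, hbig.le⟩
    have hs0 : 0 < s := lt_of_lt_of_le ht0 hs1.1
    obtain ⟨-, h5⟩ := wp_F hcp hqe hode L g2 g3 ((s : ℂ) * Complex.I) (by rw [it_im]; exact hs0)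
    rw [F_it hs0, hs2, hquart] at h5
    apply X1_gt (ht04.trans hs1.1)
    linear_combination -h5
  · have ha1 : a = 1 := by omega
    rw [hc, ha1]
    push_cast
    ring

end Run7.h238.XK
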