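import Pool.Agent.Run7.h238.XK.LOCS

/-!
# Project XK: the necessary local conditions
-/

set_option autoImplicit false

open NumberField IsDedekindDomain WeierstrassCurve WithZero

namespace Run7.h238.XK

open Run7.h135.XK
open Pool.Agent.TH841.SH.D (Pt act Gal Coch IsCoc IsCob LocTriv cob)
open Pool.Agent.TH841.NF.D (Sha IsShaCoc shaCoc)
open Pool.Agent.TH841.SH (IsR)

theorem im_alg' {K L : Type} [Field K] [Field L] [Algebra K L] {a b : ℤ}
    (h : Im L (algebraMap K L 0) (algebraMap K L 9)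
      (algebraMap K L 25) (algebraMap K L (a : K)) (algebraMap K L (b : K))) :
    Im L 0 9 25 (a : L) (b : L) := by
  rwa [map_zero, map_ofNat, map_ofNat, map_intCast, map_intCast] at h

/-- there is a place above every prime -/
theorem ex_place (K : Type) [Field K] [NumberField K] {p : ℕ} (hp : p.Prime) :
    ∃ v : HeightOneSpectrum (𝓞 K), (p : 𝓞 K) ∈ v.asIdeal := by
  have h1 : Ideal.span {(p : 𝓞 K)} ≠ ⊤ := by
    rw [Ne, Ideal.span_singleton_eq_top]
    intro hu
    have h2 := hu.map (Algebra.norm ℤ)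
    have h3 : Algebra.norm ℤ (p : 𝓞 K) =
        (p : ℤ) ^ Fintype.card (Module.Free.ChooseBasisIndex ℤ (𝓞 K)) := by
      have := Algebra.norm_algebraMap_of_basis (RingOfIntegers.basis K) (p : ℤ)
      rw [← this]
      congr 1
      simp
    have h4 : Fintype.card (Module.Free.ChooseBasisIndex ℤ (𝓞 K)) ≠ 0 := by
      rw [← Module.finrank_eq_card_chooseBasisIndex]
      exact (Module.finrank_pos).ne'
    rw [h3, isUnit_pow_iff h4] at h2
    rw [Int.isUnit_iff] at h2
    have := hp.one_lt
    omega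
  obtain ⟨M, hM, hle⟩ := Ideal.exists_le_maximal _ h1
  have hpM : (p : 𝓞 K) ∈ M := hle (Ideal.mem_span_singleton_self _)
  refine ⟨⟨M, hM.isPrime, ?_⟩, hpM⟩
  rintro rfl
  have : (p : 𝓞 K) = 0 := by simpa using hpM
  exact hp.ne_zero (by exact_mod_cast this)

theorem t_LOCN (hLTB : S_LTB) (hN2 : S_N2) (hN3 : S_N3) (hN5 : S_N5) (hNP : S_NP)
    (hPLV : S_PLV) (hPL3 : S_PL3) : S_LOCN := by
  intro K _ _ n r hn hK a b ha hb hf
  have ha0 : a ≠ 0 := fun h => ha.ne_zero (by rw [h]; rfl)
  have hb0 : b ≠ 0 := fun h => hb.ne_zero (by rw [h]; rfl)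
  have haK : (a : K) ≠ 0 := by exact_mod_cast ha0
  have hbK : (b : K) ≠ 0 := by exact_mod_cast hb0
  have d1 : (0 : K) ≠ 9 := by norm_num
  have d2 : (0 : K) ≠ 25 := by norm_num
  have d3 : (9 : K) ≠ 25 := by norm_num
  have him : ∀ v : HeightOneSpectrum (𝓞 K),
      Im (v.adicCompletion K) 0 9 25 (a : v.adicCompletion K) (b : v.adicCompletion K) := fun v =>
    im_alg' (K := K) (hLTB K (E0 K) 0 9 25 (isR0 K) d1 d2 d3 a b haK hbK (v.adicCompletion K)
      (hf.2.1 v))
  have hval : ∀ (v : HeightOneSpectrum (𝓞 K)) (p : ℕ), p.Prime → (p : 𝓞 K) ∈ v.asIdeal →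
      ¬ p ∣ n → (Valued.v : Valuation (v.adicCompletion K) ℤᵐ⁰) (p : v.adicCompletion K) =
        exp (-1 : ℤ) := by
    intro v p hp hv hpn
    have h1 := hPLV K n r hn hK v p hp hv hpn
    have h2 : (p : v.adicCompletion K) = ((p : K) : v.adicCompletion K) := by
      have := map_natCast (algebraMap K (v.adicCompletion K)) p
      exact this.symm
    rw [h2, HeightOneSpectrum.valuedAdicCompletion_eq_valuation']
    exact h1
  have hc := hn.2
  have n2 : ¬ 2 ∣ n := by omega
  have n3 : ¬ 3 ∣ n := by omega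
  have n5 : ¬ 5 ∣ n := by omega
  -- the prime two
  obtain ⟨v2, hv2⟩ := ex_place K Nat.prime_two
  have h2 := hN2 (v2.adicCompletion K) Valued.v (by
    have := hval v2 2 Nat.prime_two hv2 n2
    exact_mod_cast this) a b ha hb (him v2)
  obtain ⟨v3, hv3⟩ := ex_place K Nat.prime_three
  have h3 := hN3 (v3.adicCompletion K) Valued.v (by
    have := hval v3 3 Nat.prime_three hv3 n3
    exact_mod_cast this) (hPL3 K n r hn hK v3 (by exact_mod_cast hv3)) a b ha hb (him v3)
  obtain ⟨v5, hv5⟩ := ex_place K Nat.prime_five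
  have h5 := hN5 (v5.adicCompletion K) Valued.v (by
    have := hval v5 5 Nat.prime_five hv5 n5
    exact_mod_cast this) a b ha hb (him v5)
  refine ⟨ha, hb, h2.1, h2.2, h3.1, h3.2, h5, fun p hp hpab => ?_⟩
  by_contra hcon
  have p5 : p ≠ 5 := by
    rintro rfl
    exact hcon (dvd_mul_right 5 n)
  have pn : ¬ p ∣ n := fun h => hcon (h.mul_left 5)
  by_cases p2 : p = 2
  · subst p2
    rcases hpab with h | h
    · have := h2.1
      omega
    · have := h2.2
      omega
  · by_cases p3 : p = 3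
    · subst p3
      rcases hpab with h | h
      · exact h3.1 h
      · exact h3.2 h
    · have h30 : ¬ p ∣ 30 := by
        intro h30
        have h' : p ∣ 2 * (3 * 5) := h30
        rcases hp.dvd_mul.1 h' with h | h
        · exact p2 ((Nat.prime_dvd_prime_iff_eq hp Nat.prime_two).1 h)
        · rcases hp.dvd_mul.1 h with h | h
          · exact p3 ((Nat.prime_dvd_prime_iff_eq hp Nat.prime_three).1 h)
          · exact p5 ((Nat.prime_dvd_prime_iff_eq hp Nat.prime_five).1 h)
      obtain ⟨v, hv⟩ := ex_place K hp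
      have h6 := hNP (v.adicCompletion K) Valued.v p hp h30 (hval v p hp hv pn) a b ha hb (him v)
      rcases hpab with h | h
      · exact h6.1 h
      · exact h6.2 h

end Run7.h238.XK
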