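import Pool.Agent.Run7.h135.XK.Stm

/-!
# Project XK: the sufficient local conditions
-/

set_option autoImplicit false

open NumberField IsDedekindDomain WeierstrassCurve WithZero

namespace Run7.h238.XK

open Run7.h135.XK
open Pool.Agent.TH841.SH.D (Pt act Gal Coch IsCoc IsCob LocTriv cob)
open Pool.Agent.TH841.NF.D (Sha IsShaCoc shaCoc)
open Pool.Agent.TH841.SH (IsR)

theorem isR0 (k : Type) [Field k] : IsR (E0 k) 0 9 25 :=
  ⟨rfl, by show (-34 : k) = _; norm_num, rfl, by show (225 : k) = _; norm_num,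
    by show (0 : k) = _; norm_num⟩

theorem im_map {L M : Type} [Field L] [Field M] (φ : L →+* M) {e0 e1 e2 a b : L}
    (h : Im L e0 e1 e2 a b) : Im M (φ e0) (φ e1) (φ e2) (φ a) (φ b) := by
  rcases h with ⟨h1, h2⟩ | ⟨x, u, v, w, h1, h2, h3⟩
  · exact Or.inl ⟨h1.map φ, h2.map φ⟩
  · refine Or.inr ⟨φ x, φ u, φ v, φ w, ?_, ?_, ?_⟩
    · rw [← map_sub, h1, map_mul, map_pow]
    · rw [← map_sub, h2, map_mul, map_pow]
    · rw [← map_sub, h3, map_mul, map_mul, map_pow]

theorem im_alg {K L : Type} [Field K] [Field L] [Algebra K L] {a b : ℤ}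
    (h : Im L 0 9 25 (a : L) (b : L)) : Im L (algebraMap K L 0) (algebraMap K L 9)
      (algebraMap K L 25) (algebraMap K L (a : K)) (algebraMap K L (b : K)) := by
  rw [map_zero, map_ofNat, map_ofNat, map_intCast, map_intCast]
  exact h

theorem im_padic {p : ℕ} [Fact p.Prime] {L : Type} [Field L] (φ : ℚ_[p] →+* L) {a b : ℤ}
    (h : Im ℚ_[p] 0 9 25 (a : ℚ_[p]) (b : ℚ_[p])) : Im L 0 9 25 (a : L) (b : L) := by
  have h1 := im_map φ h
  rwa [map_zero, map_ofNat, map_ofNat, map_intCast, map_intCast] at h1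

theorem ex_prime {F : Type} [Field F] [NumberField F] (v : HeightOneSpectrum (𝓞 F)) :
    ∃ p : ℕ, p.Prime ∧ (p : 𝓞 F) ∈ v.asIdeal := by
  have key : ∀ m : ℕ, m ≠ 0 → (m : 𝓞 F) ∈ v.asIdeal →
      ∃ p : ℕ, p.Prime ∧ (p : 𝓞 F) ∈ v.asIdeal := by
    intro m
    induction m using Nat.strong_induction_on with
    | _ m ih =>
      intro hm h
      by_cases h1 : m = 1
      · exfalso
        rw [h1, Nat.cast_one] at h
        exact v.isPrime.ne_top ((Ideal.eq_top_iff_one _).2 h)
      · obtain ⟨p, hp, k, rfl⟩ := Nat.exists_prime_and_dvd h1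
        rw [Nat.cast_mul] at h
        rcases v.isPrime.mem_or_mem h with h2 | h2
        · exact ⟨p, hp, h2⟩
        · have hk : k ≠ 0 := by
            rintro rfl
            exact hm (mul_zero p)
          refine ih k ?_ hk h2
          have := hp.two_le
          nlinarith [Nat.pos_of_ne_zero hk]
  exact key _ (fun h => v.ne_bot (Ideal.absNorm_eq_zero_iff.1 h)) (Ideal.absNorm_mem v.asIdeal)

theorem sqf_not_dvd {p : ℕ} (hp : p.Prime) {a : ℤ} (ha : Squarefree a.natAbs) {a' : ℤ}
    (h : a = p * a') : ¬ (p : ℤ) ∣ a' := by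
  rintro ⟨c, rfl⟩
  have h1 : p * p ∣ a.natAbs := by
    rw [h, Int.natAbs_mul, Int.natAbs_mul, Int.natAbs_natCast, ← mul_assoc]
    exact dvd_mul_right _ _
  exact hp.one_lt.ne' (Nat.isUnit_iff.1 (ha p h1))

theorem red_spec {K : Type} [Field K] [CharZero K] {n : ℕ} {r : K} (hr : r ^ 2 = -(n : K))
    {p : ℕ} (hp : p.Prime) (hpn : p ∣ n) (hn : Squarefree n) {a : ℤ} (ha : Squarefree a.natAbs) :
    ∃ (a1 : ℤ) (c : K), a1 ≠ 0 ∧ c ≠ 0 ∧ ¬ (p : ℤ) ∣ a1 ∧ (a : K) = a1 * c ^ 2 := by
  have ha0 : a ≠ 0 := fun h => ha.ne_zero (by rw [h]; rfl)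
  by_cases h : (p : ℤ) ∣ a
  · obtain ⟨a', ha'⟩ := h
    obtain ⟨n', hn'⟩ := hpn
    have h1 := sqf_not_dvd hp ha ha'
    have h2 : ¬ (p : ℤ) ∣ (n' : ℤ) := sqf_not_dvd hp (a := (n : ℤ)) (by simpa using hn) (by
      rw [hn']
      push_cast
      ring)
    have hpp : Prime (p : ℤ) := Nat.prime_iff_prime_int.1 hp
    have hn0 : (n : K) ≠ 0 := by exact_mod_cast hn.ne_zero
    have hr0 : r ≠ 0 := by
      rintro rfl
      apply hn0
      linear_combination hr
    have hp0 : (p : K) ≠ 0 := by exact_mod_cast hp.ne_zero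
    refine ⟨-(a' * n'), p / r, ?_, div_ne_zero hp0 hr0, ?_, ?_⟩
    · intro h0
      apply h1
      rcases mul_eq_zero.1 (neg_eq_zero.1 h0) with h3 | h3
      · rw [h3]
        exact dvd_zero _
      · exact absurd (by rw [h3]; exact dvd_zero _) h2
    · rw [dvd_neg]
      intro h3
      rcases hpp.dvd_or_dvd h3 with h4 | h4
      · exact h1 h4
      · exact h2 h4
    · have e1 : (a : K) = p * a' := by exact_mod_cast congrArg (Int.cast : ℤ → K) ha'
      have e2 : (n : K) = p * n' := by exact_mod_cast congrArg (Nat.cast : ℕ → K) hn'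
      rw [e1]
      push_cast
      field_simp
      rw [hr, e2]
      ring
  · exact ⟨a, 1, ha0, one_ne_zero, h, by rw [one_pow, mul_one]⟩

theorem t_LOCS (hCAD : S_CAD) (hLTA : S_LTA) (hU23 : S_U23) (hUP : S_UP) (hPLU : S_PLU)
    (hPL5 : S_PL5) (hPLC : S_PLC) : S_LOCS := by
  intro K _ _ n r hn hK a b hc
  have ha0 : a ≠ 0 := fun h => hc.sa.ne_zero (by rw [h]; rfl)
  have hb0 : b ≠ 0 := fun h => hc.sb.ne_zero (by rw [h]; rfl)
  have haK : (a : K) ≠ 0 := by exact_mod_cast ha0
  have hbK : (b : K) ≠ 0 := by exact_mod_cast hb0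
  have d1 : (0 : K) ≠ 9 := by norm_num
  have d2 : (0 : K) ≠ 25 := by norm_num
  have d3 : (9 : K) ≠ 25 := by norm_num
  obtain ⟨c1, _, c3⟩ := hCAD K (E0 K) 0 9 25 (isR0 K) d1 d2 d3
  refine ⟨(c1 a b haK hbK).1, fun v => ?_, fun v => ?_⟩
  · obtain ⟨p, hp, hv⟩ := ex_prime v
    have : Fact p.Prime := ⟨hp⟩
    obtain ⟨φ⟩ := hPLU K v p hv
    have base : Im (v.adicCompletion K) 0 9 25 (a : v.adicCompletion K) (b : v.adicCompletion K) →
        LocTriv (E0 K) (v.adicCompletion K) (Cc (E0 K) 0 9 (a : K) (b : K)) := fun h =>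
      hLTA K (E0 K) 0 9 25 (isR0 K) d1 d2 d3 a b haK hbK (v.adicCompletion K) (im_alg h)
    by_cases hpn : p ∣ n
    · -- a ramified prime
      obtain ⟨a1, c, ha1, hc0, hpa, ea⟩ := red_spec hK.sq hp hpn hn.1 hc.sa
      obtain ⟨b1, d, hb1, hd0, hpb, eb⟩ := red_spec hK.sq hp hpn hn.1 hc.sb
      have ha1K : (a1 : K) ≠ 0 := by exact_mod_cast ha1
      have hb1K : (b1 : K) ≠ 0 := by exact_mod_cast hb1
      rw [ea, eb, c3 a1 b1 c d ha1K hb1K hc0 hd0]
      refine hLTA K (E0 K) 0 9 25 (isR0 K) d1 d2 d3 a1 b1 ha1K hb1K (v.adicCompletion K)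
        (im_alg (im_padic φ (hUP p ?_ a1 b1 hpa hpb)))
      intro h30
      have h2 := hn.2
      have h3 : p ∣ 2 * (3 * 5) := h30
      rcases hp.dvd_mul.1 h3 with h | h
      · have := (Nat.prime_dvd_prime_iff_eq hp Nat.prime_two).1 h
        subst this
        omega
      · rcases hp.dvd_mul.1 h with h | h
        · have := (Nat.prime_dvd_prime_iff_eq hp Nat.prime_three).1 h
          subst this
          omega
        · have := (Nat.prime_dvd_prime_iff_eq hp Nat.prime_five).1 h
          subst this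
          omega
    · by_cases h5 : p = 5
      · subst h5
        have hb5 : IsSquare (b : v.adicCompletion K) := hPL5 K n r hn hK v hv b hc.b5
        by_cases ha5 : (5 : ℤ) ∣ a
        · obtain ⟨a', ha'⟩ := ha5
          have h1 : ¬ (5 : ℤ) ∣ a' := sqf_not_dvd hp hc.sa ha'
          obtain ⟨s, hs⟩ := hPL5 K n r hn hK v hv a' h1
          obtain ⟨t, ht⟩ := hb5
          have e1 : (a : v.adicCompletion K) = 5 * a' := by
            rw [ha']
            push_cast
            ring
          have hz : CharZero (v.adicCompletion K) :=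
            charZero_of_injective_algebraMap (algebraMap K (v.adicCompletion K)).injective
          have hs0 : s ≠ 0 := by
            rintro rfl
            rw [mul_zero] at hs
            have : a' = 0 := by exact_mod_cast hs
            exact h1 (by rw [this]; exact dvd_zero _)
          have ht0 : t ≠ 0 := by
            rintro rfl
            rw [mul_zero] at ht
            have : b = 0 := by exact_mod_cast ht
            exact hb0 this
          refine base (Or.inr ⟨45, 3 / s, 6 / t, 2 / (s * t), ?_, ?_, ?_⟩)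
          · rw [e1, hs]
            field_simp
            norm_num
          · rw [ht]
            field_simp
            norm_num
          · rw [e1, hs, ht]
            field_simp
            norm_num
        · exact base (Or.inl ⟨hPL5 K n r hn hK v hv a ha5, hb5⟩)
      · by_cases h2 : p = 2
        · subst h2
          exact base (im_padic φ (hU23.1 a b hc.a4 hc.b2))
        · by_cases h3 : p = 3
          · subst h3
            exact base (im_padic φ (hU23.2 a b hc.a3 hc.b3))
          · have h30 : ¬ p ∣ 30 := by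
              intro h30
              have h' : p ∣ 2 * (3 * 5) := h30
              rcases hp.dvd_mul.1 h' with h | h
              · exact h2 ((Nat.prime_dvd_prime_iff_eq hp Nat.prime_two).1 h)
              · rcases hp.dvd_mul.1 h with h | h
                · exact h3 ((Nat.prime_dvd_prime_iff_eq hp Nat.prime_three).1 h)
                · exact h5 ((Nat.prime_dvd_prime_iff_eq hp Nat.prime_five).1 h)
            have h5n : ¬ p ∣ 5 * n := by
              intro h
              rcases hp.dvd_mul.1 h with h | h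
              · exact h5 ((Nat.prime_dvd_prime_iff_eq hp Nat.prime_five).1 h)
              · exact hpn h
            exact base (im_padic φ (hUP p h30 a b (fun h => h5n (hc.pr p hp (Or.inl h)))
              (fun h => h5n (hc.pr p hp (Or.inr h)))))
  · exact hLTA K (E0 K) 0 9 25 (isR0 K) d1 d2 d3 a b haK hbK v.Completion
      (Or.inl ⟨hPLC K n r hn hK v _, hPLC K n r hn hK v _⟩)

end Run7.h238.XK
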