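import Pool.Agent.Run7.h238.XK.LOCN

/-!
# Project XK: the Selmer group over `ℚ`
-/

set_option autoImplicit false

open NumberField IsDedekindDomain WeierstrassCurve WithZero

namespace Run7.h238.XK

open Run7.h135.XK
open Pool.Agent.TH841.SH.D (Pt act Gal Coch IsCoc IsCob LocTriv cob)
open Pool.Agent.TH841.SH (IsR)

theorem mv_ne {p : ℕ} [hp : Fact p.Prime] {x : ℚ_[p]} (h0 : x ≠ 0) :
    (Padic.mulValuation : Valuation ℚ_[p] ℤᵐ⁰) x = exp (-x.valuation) :=
  if_neg h0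

theorem padic_val (p : ℕ) [hp : Fact p.Prime] :
    (Padic.mulValuation : Valuation ℚ_[p] ℤᵐ⁰) (p : ℚ_[p]) = exp (-1 : ℤ) := by
  have h0 : (p : ℚ_[p]) ≠ 0 := by exact_mod_cast hp.out.ne_zero
  rw [mv_ne h0, Padic.valuation_p]

theorem norm_lt {p : ℕ} [hp : Fact p.Prime] {x : ℚ_[p]}
    (h : (Padic.mulValuation : Valuation ℚ_[p] ℤᵐ⁰) x < 1) : ‖x‖ < 1 := by
  by_cases h0 : x = 0
  · rw [h0, norm_zero]
    exact one_pos
  · rw [mv_ne h0, ← exp_zero, exp_lt_exp] at h
    rw [Padic.norm_eq_zpow_neg_valuation h0]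
    exact zpow_lt_one_of_neg₀ (by exact_mod_cast hp.out.one_lt) (by omega)

theorem z3_sq : ∀ z : ZMod 3, z ^ 2 + 1 ≠ 0 := by decide

theorem three_sq [Fact (Nat.Prime 3)] (t : ℚ_[3]) :
    ¬ (Padic.mulValuation : Valuation ℚ_[3] ℤᵐ⁰) (t ^ 2 + 1) < 1 := by
  intro h
  have h1 := norm_lt h
  by_cases ht : ‖t‖ ≤ 1
  · let t' : ℤ_[3] := ⟨t, ht⟩
    have h2 : ‖(t' ^ 2 + 1 : ℤ_[3])‖ < 1 := by
      rw [PadicInt.norm_def]
      push_cast
      exact h1
    have h3 : (t' ^ 2 + 1 : ℤ_[3]) ∈ IsLocalRing.maximalIdeal ℤ_[3] := by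
      rw [IsLocalRing.mem_maximalIdeal, PadicInt.mem_nonunits]
      exact h2
    rw [← PadicInt.ker_toZMod, RingHom.mem_ker, map_add, map_pow, map_one] at h3
    exact z3_sq _ h3
  · rw [not_le] at ht
    have h2 : ‖t ^ 2‖ ≠ ‖(1 : ℚ_[3])‖ := by
      rw [norm_pow, norm_one]
      nlinarith
    rw [Padic.add_eq_max_of_ne h2, norm_pow, norm_one] at h1
    have := lt_of_le_of_lt (le_max_right _ _) h1
    exact lt_irrefl _ this

/-- a squarefree integer without prime factors is a unit -/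
theorem sf_unit {b : ℤ} (h : ∀ p : ℕ, p.Prime → ¬ (p : ℤ) ∣ b) :
    b = 1 ∨ b = -1 := by
  by_cases h1 : b.natAbs = 1
  · exact Int.natAbs_eq_iff.1 h1
  · obtain ⟨p, hp, hd⟩ := Nat.exists_prime_and_dvd h1
    exact absurd (Int.natCast_dvd.2 hd) (h p hp)

theorem sf_five {a : ℤ} (ha : Squarefree a.natAbs) (h : ∀ p : ℕ, p.Prime → p ≠ 5 → ¬ (p : ℤ) ∣ a) :
    a = 1 ∨ a = -1 ∨ a = 5 ∨ a = -5 := by
  by_cases h5 : (5 : ℤ) ∣ a
  · obtain ⟨c, hc⟩ := h5
    have h6 := sqf_not_dvd Nat.prime_five ha hc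
    have hc' : Squarefree c.natAbs := by
      refine ha.squarefree_of_dvd ?_
      rw [hc, Int.natAbs_mul]
      exact dvd_mul_left _ _
    have h7 : c = 1 ∨ c = -1 := by
      refine sf_unit fun p hp hd => ?_
      by_cases hp5 : p = 5
      · subst hp5
        exact h6 hd
      · exact h p hp hp5 (hc ▸ Dvd.dvd.mul_left hd 5)
    rcases h7 with rfl | rfl
    · right; right; left
      rw [hc]
      rfl
    · right; right; right
      rw [hc]
      rfl
  · have h7 : a = 1 ∨ a = -1 := by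
      refine sf_unit fun p hp hd => ?_
      by_cases hp5 : p = 5
      · subst hp5
        exact h5 hd
      · exact h p hp hp5 hd
    rcases h7 with h7 | h7
    · exact Or.inl h7
    · exact Or.inr (Or.inl h7)

theorem ex_sf {b : ℚ} (hb : b ≠ 0) : ∃ (X : ℤ) (d : ℚ), Squarefree X.natAbs ∧ d ≠ 0 ∧
    b = X * d ^ 2 := by
  obtain ⟨a, s, hab, ha⟩ := Nat.sq_mul_squarefree (b.num * b.den).natAbs
  have hd : (b.den : ℚ) ≠ 0 := by exact_mod_cast b.den_ne_zero
  have h0 : b.num * b.den ≠ 0 := mul_ne_zero (Rat.num_ne_zero.2 hb) (by exact_mod_cast b.den_ne_zero)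
  have hs : s ≠ 0 := by
    rintro rfl
    rw [zero_pow two_ne_zero, zero_mul] at hab
    exact h0 (Int.natAbs_eq_zero.1 hab.symm)
  have hsq : (s : ℚ) ≠ 0 := by exact_mod_cast hs
  have e0 : b = b.num / b.den := (Rat.num_div_den b).symm
  have h2 : b * (b.den : ℚ) ^ 2 = b.num * b.den := by
    nth_rewrite 1 [e0]
    field_simp
  rcases Int.natAbs_eq (b.num * b.den) with h | h
  · refine ⟨a, s / b.den, by simpa using ha, div_ne_zero hsq hd, ?_⟩
    have h1 : (b.num : ℚ) * b.den = s ^ 2 * a := by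
      rw [← hab] at h
      exact_mod_cast h
    rw [h1] at h2
    push_cast
    field_simp
    linear_combination h2
  · refine ⟨-a, s / b.den, by simpa using ha, div_ne_zero hsq hd, ?_⟩
    have h1 : (b.num : ℚ) * b.den = -(s ^ 2 * a) := by
      rw [← hab] at h
      exact_mod_cast h
    rw [h1] at h2
    push_cast
    field_simp
    linear_combination h2

theorem t_SELQ (hCAD : S_CAD) (hLTB : S_LTB) (hN2 : S_N2) (hN3 : S_N3) (hN5 : S_N5)
    (hNP : S_NP) : S_SELQ := by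
  intro a b ha hb hf
  have d1 : (0 : ℚ) ≠ 9 := by norm_num
  have d2 : (0 : ℚ) ≠ 25 := by norm_num
  have d3 : (9 : ℚ) ≠ 25 := by norm_num
  obtain ⟨_, _, c3⟩ := hCAD ℚ (E0 ℚ) 0 9 25 (isR0 ℚ) d1 d2 d3
  obtain ⟨A, c, hA, hc, ea⟩ := ex_sf ha
  obtain ⟨B, d, hB, hd, eb⟩ := ex_sf hb
  have hA0 : (A : ℚ) ≠ 0 := by
    have : A ≠ 0 := fun h => hA.ne_zero (by rw [h]; rfl)
    exact_mod_cast this
  have hB0 : (B : ℚ) ≠ 0 := by
    have : B ≠ 0 := fun h => hB.ne_zero (by rw [h]; rfl)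
    exact_mod_cast this
  rw [ea, eb, c3 A B c d hA0 hB0 hc hd] at hf
  have him : ∀ (p : ℕ) [Fact p.Prime], Im ℚ_[p] 0 9 25 (A : ℚ_[p]) (B : ℚ_[p]) := fun p _ =>
    im_alg' (K := ℚ) (hLTB ℚ (E0 ℚ) 0 9 25 (isR0 ℚ) d1 d2 d3 A B hA0 hB0 ℚ_[p] (hf.2.1 p))
  have f2 : Fact (Nat.Prime 2) := ⟨Nat.prime_two⟩
  have f3 : Fact (Nat.Prime 3) := ⟨Nat.prime_three⟩
  have f5 : Fact (Nat.Prime 5) := ⟨Nat.prime_five⟩
  have h2 := hN2 ℚ_[2] Padic.mulValuation (by exact_mod_cast padic_val 2) A B hA hB (him 2)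
  have h3 := hN3 ℚ_[3] Padic.mulValuation (by exact_mod_cast padic_val 3) three_sq A B hA hB (him 3)
  have h5 := hN5 ℚ_[5] Padic.mulValuation (by exact_mod_cast padic_val 5) A B hA hB (him 5)
  have hp : ∀ p : ℕ, p.Prime → p ≠ 5 → ¬ (p : ℤ) ∣ A ∧ ¬ (p : ℤ) ∣ B := by
    intro p hp p5
    by_cases p2 : p = 2
    · subst p2
      have h21 := h2.1
      have h22 := h2.2
      constructor
      · intro h
        have : (2 : ℤ) ∣ A := by exact_mod_cast h
        omega
      · intro h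
        have : (2 : ℤ) ∣ B := by exact_mod_cast h
        omega
    · by_cases p3 : p = 3
      · subst p3
        exact ⟨fun h => h3.1 (by exact_mod_cast h), fun h => h3.2 (by exact_mod_cast h)⟩
      · have h30 : ¬ p ∣ 30 := by
          intro h30
          have h' : p ∣ 2 * (3 * 5) := h30
          rcases hp.dvd_mul.1 h' with h | h
          · exact p2 ((Nat.prime_dvd_prime_iff_eq hp Nat.prime_two).1 h)
          · rcases hp.dvd_mul.1 h with h | h
            · exact p3 ((Nat.prime_dvd_prime_iff_eq hp Nat.prime_three).1 h)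
            · exact p5 ((Nat.prime_dvd_prime_iff_eq hp Nat.prime_five).1 h)
        have : Fact p.Prime := ⟨hp⟩
        exact hNP ℚ_[p] Padic.mulValuation p hp h30 (padic_val p) A B hA hB (him p)
  have hA' := sf_five hA fun p hp' p5 => (hp p hp' p5).1
  have hB' : B = 1 ∨ B = -1 := by
    refine sf_unit fun p hp' hd' => ?_
    by_cases p5 : p = 5
    · subst p5
      exact h5 (by exact_mod_cast hd')
    · exact (hp p hp' p5).2 hd'
  have h21 := h2.1
  constructor
  · rcases hA' with h | h | h | h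
    · left
      rw [ea, h]
      exact ⟨c, by push_cast; ring⟩
    · rw [h] at h21
      omega
    · right
      rw [ea, h]
      exact ⟨5 * c, by push_cast; ring⟩
    · rw [h] at h21
      omega
  · rcases hB' with h | h
    · left
      rw [eb, h]
      exact ⟨d, by push_cast; ring⟩
    · right
      rw [eb, h]
      exact ⟨d, by push_cast; ring⟩

end Run7.h238.XK
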